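import Pool.Agent.Helper63.MF.Frame
import Pool.Agent.Helper25.RA.Check

/-!
A kernel check of a finite menu certificate. Sets of types are bit masks.
-/

namespace Pool.Agent.Helper63.MF

open Pool.Agent.RA6
open Pool.Agent.Helper25.RA (allIdx allIdx_spec gt badL mem_badL bad_of_mem six mem_six Bad
  cond_true_of)

/-- One type. `mm c`: the older types it may see by a default `c`; `mt c`: the newborn types which
may see it by a default `c`; `cc c`: the types joined to it by `c`; `kw`, `kz`: packed masks of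
pairs of kills; `y`: packed servers of the requests at this type and `r2`. -/
structure MRow where
  idx : Nat
  mm : List Nat
  mt : List Nat
  cc : List Nat
  kw : Nat
  kz : Nat
  y : List Nat

instance : Inhabited MRow := ⟨⟨0, [], [], [], 0, 0, []⟩⟩

/-- slot of width 128 -/
def slot (p i : Nat) : Nat := Nat.shiftRight p (Nat.mul 128 i)

/-- server number in a packed list, 8 bits each -/
def srv (p i : Nat) : Nat := Nat.mod (Nat.shiftRight p (Nat.mul 8 i)) 256

/-- `a` is contained in `b` -/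
def sub (a b : Nat) : Bool := Nat.beq (Nat.land a b) a

/-- table of killed colours, 6 = none -/
def kcN (t e : Nat) : Nat :=
  match t, e with
  | 0, 0 => 2 | 0, 2 => 0 | 0, 4 => 4
  | 2, 2 => 4 | 2, 4 => 2 | 2, 0 => 0
  | 4, 4 => 0 | 4, 0 => 4 | 4, 2 => 2
  | 1, 1 => 3 | 1, 3 => 1 | 1, 5 => 5
  | 3, 3 => 5 | 3, 5 => 3 | 3, 1 => 1
  | 5, 5 => 1 | 5, 1 => 5 | 5, 3 => 3
  | _, _ => 6

/-- index of a pair of kills -/
def ix (k1 k2 : Nat) : Nat :=
  cond (Nat.beq k1 6) (cond (Nat.beq k2 6) 36 (Nat.mul 7 k2))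
    (cond (Nat.beq k2 6) (Nat.mul 7 k1) (Nat.add (Nat.mul 6 k1) k2))

/-- the colour survives -/
def ok (c i : Nat) : Bool :=
  cond (Nat.beq i 36) true (!(Nat.beq c (Nat.div i 6)) && !(Nat.beq c (Nat.mod i 6)))

theorem kc_spec : ∀ t e c : Fin 6, Bad t e c → c.1 = kcN t.1 e.1 := by decide

theorem kc_le : ∀ t e : Fin 6, kcN t.1 e.1 ≤ 6 := by decide

theorem ix_ok : ∀ k1 k2 : Fin 7, ∀ c : Fin 6, ok c.1 (ix k1.1 k2.1) = true →
    c.1 ≠ k1.1 ∧ c.1 ≠ k2.1 := by decide

theorem ix_lt : ∀ k1 k2 : Fin 7, ix k1.1 k2.1 < 37 := by decide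

theorem ok_bad {t e u e2 c : Fin 6} (h : ok c.1 (ix (kcN t.1 e.1) (kcN u.1 e2.1)) = true) :
    ¬ Bad t e c ∧ ¬ Bad u e2 c := by
  have h1 := kc_le t e
  have h2 := kc_le u e2
  have := ix_ok ⟨kcN t.1 e.1, by omega⟩ ⟨kcN u.1 e2.1, by omega⟩ c h
  exact ⟨fun hb => this.1 (kc_spec _ _ _ hb), fun hb => this.2 (kc_spec _ _ _ hb)⟩

/-- the numbers below 37 -/
def l37 : List Nat := [0, 1, 2, 3, 4, 5, 6, 7, 8, 9, 10, 11, 12, 13, 14, 15, 16, 17, 18, 19, 20, 21,
  22, 23, 24, 25, 26, 27, 28, 29, 30, 31, 32, 33, 34, 35, 36]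

theorem mem_l37 : ∀ i : Fin 37, i.1 ∈ l37 := by decide

/-- masks of a pair -/
def ck1 (s q : MRow) : Bool :=
  (six.all fun c => cond ((gt s.mm c).testBit q.idx)
    ((gt q.mt c).testBit s.idx && (gt s.cc c).testBit q.idx) true) &&
  (six.all fun c => cond ((gt s.cc c).testBit q.idx) ((gt q.cc c).testBit s.idx) true) &&
  (slot q.kz 36).testBit s.idx

/-- every combination of kills leaves a colour of the menu -/
def ck2 (s q : MRow) : Bool :=
  l37.all fun i => cond ((slot s.kw i).testBit q.idx)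
    (l37.all fun j => cond ((slot q.kz j).testBit s.idx)
      (six.any fun c => (gt s.mm c).testBit q.idx && ok c i && ok c j) true) true

/-- menus are not empty -/
def ck2' (s q : MRow) : Bool := six.any fun c => (gt s.mm c).testBit q.idx

/-- triangles with three default sides -/
def ck3 (s q : MRow) : Bool :=
  six.all fun a => cond ((gt s.mm a).testBit q.idx)
    ((badL a).all fun p => Nat.beq (Nat.land (gt q.mm p.1) (gt s.mm p.2)) 0) true

/-- a request -/
def ck4 (D : List MRow) (r r2 : MRow) (t u k : Nat) : Bool :=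
  cond (Nat.blt k D.length)
    (let s := D.getD k default
     (gt s.cc t).testBit r.idx && (gt s.cc u).testBit r2.idx &&
      six.all fun e => six.all fun e2 =>
        (cond (Nat.beq e t && Nat.beq e2 u) true
          (sub (Nat.land (gt r.cc e) (gt r2.cc e2)) (Nat.land
            (Nat.land (gt r.cc e) (gt r2.cc e2)) (slot s.kw (ix (kcN t e) (kcN u e2)))))) &&
        sub (Nat.land (gt r.mt e) (gt r2.mt e2)) (Nat.land
          (Nat.land (gt r.mt e) (gt r2.mt e2)) (slot s.kz (ix (kcN t e) (kcN u e2)))))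
    (six.all fun c => cond ((gt r.cc c).testBit r2.idx) ((badL c).contains (t, u)) true)

/-- all requests at a pair -/
def ck5 (D : List MRow) (r r2 : MRow) : Bool :=
  six.all fun t => six.all fun u =>
    ck4 D r r2 t u (srv (r.y.getD r2.idx 0) (Nat.add (Nat.mul 6 t) u))

/-- the check of the tables -/
def ckA (D : List MRow) : Bool :=
  (allIdx D 0 fun i r => Nat.beq i r.idx) &&
  (D.all fun s => D.all fun q => ck1 s q && ck2 s q && ck2' s q && ck3 s q)

/-- the check of the requests, for the rows in `D'` -/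
def ckB (D D' : List MRow) : Bool := D'.all fun r => D.all fun r2 => ck5 D r r2

variable (D : List MRow)

/-- row of a type -/
def mrow (i : Fin D.length) : MRow := D.getD i.1 default

/-- menu -/
def tM (s q : Fin D.length) (c : Fin 6) : Prop := (gt (mrow D s).mm c.1).testBit q.1 = true

/-- colours which may occur -/
def tC (s q : Fin D.length) (c : Fin 6) : Prop := (gt (mrow D s).cc c.1).testBit q.1 = true

/-- server -/
def tY (r r2 : Fin D.length) (t u : Fin 6) (s : Fin D.length) : Prop :=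
  s.1 = srv ((mrow D r).y.getD r2.1 0) (Nat.add (Nat.mul 6 t.1) u.1)

theorem mrow_mem (i : Fin D.length) : mrow D i ∈ D := by
  unfold mrow
  rw [List.getD_eq_getElem _ _ i.2]
  exact List.getElem_mem i.2

variable {D}

theorem mrow_idx (h : ckA D = true) (i : Fin D.length) : (mrow D i).idx = i.1 := by
  simp only [ckA, Bool.and_eq_true] at h
  have := allIdx_spec default D 0 _ h.1 i.1 i.2
  have h2 := Nat.eq_of_beq_eq_true this
  rw [Nat.zero_add] at h2
  exact h2.symm

theorem ckA_pair (h : ckA D = true) (s q : Fin D.length) :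
    ck1 (mrow D s) (mrow D q) = true ∧ ck2 (mrow D s) (mrow D q) = true ∧
      ck2' (mrow D s) (mrow D q) = true ∧ ck3 (mrow D s) (mrow D q) = true := by
  simp only [ckA, Bool.and_eq_true, List.all_eq_true] at h
  have := h.2 _ (mrow_mem D s) _ (mrow_mem D q)
  exact ⟨this.1.1.1, this.1.1.2, this.1.2, this.2⟩

theorem mt_of (h : ckA D = true) {s q : Fin D.length} {c : Fin 6} (hc : tM D s q c) :
    (gt (mrow D q).mt c.1).testBit s.1 = true ∧ tC D s q c := by
  have h1 := (ckA_pair h s q).1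
  simp only [ck1, Bool.and_eq_true, List.all_eq_true] at h1
  have h2 := h1.1.1 c.1 (mem_six c)
  rw [mrow_idx h, mrow_idx h] at h2
  have h3 := cond_true_of h2 hc
  rw [Bool.and_eq_true] at h3
  exact h3

theorem tC_symm (h : ckA D = true) {s q : Fin D.length} {c : Fin 6} (hc : tC D s q c) :
    tC D q s c := by
  have h1 := (ckA_pair h s q).1
  simp only [ck1, Bool.and_eq_true, List.all_eq_true] at h1
  have h2 := h1.1.2 c.1 (mem_six c)
  rw [mrow_idx h, mrow_idx h] at h2
  exact cond_true_of h2 hc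

theorem kz36 (h : ckA D = true) (s q : Fin D.length) :
    (slot (mrow D q).kz 36).testBit s.1 = true := by
  have h1 := (ckA_pair h s q).1
  simp only [ck1, Bool.and_eq_true, List.all_eq_true] at h1
  have h2 := h1.2
  rw [mrow_idx h] at h2
  exact h2

theorem tM_ne (h : ckA D = true) (s q : Fin D.length) : ∃ c, tM D s q c := by
  have h1 := (ckA_pair h s q).2.2.1
  simp only [ck2', List.any_eq_true] at h1
  obtain ⟨c, hc, h2⟩ := h1
  rw [mrow_idx h] at h2
  have hc6 : c < 6 := by
    simp only [six, List.mem_cons, List.not_mem_nil, or_false] at hc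
    omega
  exact ⟨⟨c, hc6⟩, h2⟩

theorem combo (h : ckA D = true) (s q : Fin D.length) (i j : Nat) (hi : i < 37) (hj : j < 37)
    (hw : (slot (mrow D s).kw i).testBit q.1 = true)
    (hz : (slot (mrow D q).kz j).testBit s.1 = true) :
    ∃ c : Fin 6, tM D s q c ∧ ok c.1 i = true ∧ ok c.1 j = true := by
  have h1 := (ckA_pair h s q).2.1
  simp only [ck2, List.all_eq_true] at h1
  have h2 := h1 i (mem_l37 ⟨i, hi⟩)
  rw [mrow_idx h, mrow_idx h] at h2
  have h3 := cond_true_of h2 hw
  rw [List.all_eq_true] at h3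
  have h4 := cond_true_of (h3 j (mem_l37 ⟨j, hj⟩)) hz
  rw [List.any_eq_true] at h4
  obtain ⟨c, hc, h5⟩ := h4
  rw [Bool.and_eq_true, Bool.and_eq_true] at h5
  have hc6 : c < 6 := by
    simp only [six, List.mem_cons, List.not_mem_nil, or_false] at hc
    omega
  exact ⟨⟨c, hc6⟩, h5.1.1, h5.1.2, h5.2⟩

theorem tri_of (h : ckA D = true) (s q q2 : Fin D.length) (a b c : Fin 6) (ha : tM D s q a)
    (hb : tM D s q2 b) (hc : tM D q q2 c) : ¬ Bad a c b := by
  intro hbad
  have h1 := (ckA_pair h s q).2.2.2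
  simp only [ck3, List.all_eq_true] at h1
  have h2 := h1 a.1 (mem_six a)
  rw [mrow_idx h] at h2
  have h3 := cond_true_of h2 ha
  rw [List.all_eq_true] at h3
  have h4 := Nat.eq_of_beq_eq_true (h3 _ (mem_badL a c b hbad))
  have h5 : ((gt (mrow D q).mm c.1) &&& (gt (mrow D s).mm b.1)).testBit q2.1 = true := by
    rw [Nat.testBit_and, Bool.and_eq_true]
    exact ⟨hc, hb⟩
  have h6 : ((gt (mrow D q).mm c.1) &&& (gt (mrow D s).mm b.1)) = 0 := h4
  rw [h6] at h5
  simp at h5

theorem ckB_pair (h2 : ckB D D = true) (r r2 : Fin D.length) :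
    ck5 D (mrow D r) (mrow D r2) = true := by
  simp only [ckB, List.all_eq_true] at h2
  exact h2 _ (mrow_mem D r) _ (mrow_mem D r2)

theorem req_of (h : ckA D = true) (h2 : ckB D D = true) (r r2 : Fin D.length) (t u : Fin 6) :
    ck4 D (mrow D r) (mrow D r2) t.1 u.1
      (srv ((mrow D r).y.getD r2.1 0) (Nat.add (Nat.mul 6 t.1) u.1)) = true := by
  have h1 := ckB_pair h2 r r2
  simp only [ck5, List.all_eq_true] at h1
  have h3 := h1 t.1 (mem_six t) u.1 (mem_six u)
  rw [mrow_idx h] at h3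
  exact h3

theorem cover_of (h : ckA D = true) (h2 : ckB D D = true) (r r2 : Fin D.length) (k t u : Fin 6)
    (hk : tC D r r2 k) (hb : ¬ Bad k t u) : ∃ s, tY D r r2 t u s := by
  have h1 := req_of h h2 r r2 t u
  by_cases hlt : srv ((mrow D r).y.getD r2.1 0) (Nat.add (Nat.mul 6 t.1) u.1) < D.length
  · exact ⟨⟨_, hlt⟩, rfl⟩
  · exfalso
    unfold ck4 at h1
    have e : Nat.blt (srv ((mrow D r).y.getD r2.1 0) (Nat.add (Nat.mul 6 t.1) u.1)) D.length
        = false := by
      rw [Bool.eq_false_iff]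
      intro hh
      exact hlt (Nat.blt_eq.mp hh)
    rw [e] at h1
    have h3 : (six.all fun c => cond ((gt (mrow D r).cc c).testBit (mrow D r2).idx)
      ((badL c).contains (t.1, u.1)) true) = true := h1
    rw [List.all_eq_true] at h3
    have h4 := h3 k.1 (mem_six k)
    rw [mrow_idx h] at h4
    have h5 := cond_true_of h4 hk
    exact hb (bad_of_mem _ _ _ (by simpa using h5))

theorem sub_bit {a b i : Nat} (h : sub a (Nat.land a b) = true) (ha : a.testBit i = true) :
    b.testBit i = true := by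
  have h1 : Nat.land a (Nat.land a b) = a := Nat.eq_of_beq_eq_true h
  have h2 : (a &&& (a &&& b)).testBit i = true := by
    have : (a &&& (a &&& b)) = a := h1
    rw [this]; exact ha
  rw [Nat.testBit_and, Nat.testBit_and, Bool.and_eq_true, Bool.and_eq_true] at h2
  exact h2.2.2

structure ReqFacts (D : List MRow) (r r2 : Fin D.length) (t u : Fin 6) (s : Fin D.length) :
    Prop where
  c1 : tC D s r t
  c2 : tC D s r2 u
  kw : ∀ (q : Fin D.length) (e e2 : Fin 6), tC D r q e → tC D r2 q e2 → ¬ (e = t ∧ e2 = u) →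
    (slot (mrow D s).kw (ix (kcN t.1 e.1) (kcN u.1 e2.1))).testBit q.1 = true
  kz : ∀ (g : Fin D.length) (e e2 : Fin 6), (gt (mrow D r).mt e.1).testBit g.1 = true →
    (gt (mrow D r2).mt e2.1).testBit g.1 = true →
    (slot (mrow D s).kz (ix (kcN t.1 e.1) (kcN u.1 e2.1))).testBit g.1 = true

theorem facts (h : ckA D = true) (h2 : ckB D D = true) (r r2 : Fin D.length) (t u : Fin 6)
    (s : Fin D.length) (hs : tY D r r2 t u s) : ReqFacts D r r2 t u s := by
  have h1 := req_of h h2 r r2 t u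
  unfold tY at hs
  rw [← hs] at h1
  unfold ck4 at h1
  have e : Nat.blt s.1 D.length = true := Nat.blt_eq.mpr s.2
  rw [e] at h1
  have h3 : ((gt (mrow D s).cc t.1).testBit (mrow D r).idx &&
      (gt (mrow D s).cc u.1).testBit (mrow D r2).idx &&
      six.all fun e => six.all fun e2 =>
        (cond (Nat.beq e t.1 && Nat.beq e2 u.1) true
          (sub (Nat.land (gt (mrow D r).cc e) (gt (mrow D r2).cc e2)) (Nat.land
            (Nat.land (gt (mrow D r).cc e) (gt (mrow D r2).cc e2))
            (slot (mrow D s).kw (ix (kcN t.1 e) (kcN u.1 e2)))))) &&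
        sub (Nat.land (gt (mrow D r).mt e) (gt (mrow D r2).mt e2)) (Nat.land
          (Nat.land (gt (mrow D r).mt e) (gt (mrow D r2).mt e2))
          (slot (mrow D s).kz (ix (kcN t.1 e) (kcN u.1 e2))))) = true := h1
  rw [Bool.and_eq_true, Bool.and_eq_true, mrow_idx h, mrow_idx h, List.all_eq_true] at h3
  refine ⟨h3.1.1, h3.1.2, ?_, ?_⟩
  · intro q e e2 he he2 hne
    have h4 := h3.2 e.1 (mem_six e)
    rw [List.all_eq_true] at h4
    have h5 := h4 e2.1 (mem_six e2)
    rw [Bool.and_eq_true] at h5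
    have h6 := h5.1
    have e0 : (Nat.beq e.1 t.1 && Nat.beq e2.1 u.1) = false := by
      rw [Bool.eq_false_iff]
      intro hh
      rw [Bool.and_eq_true] at hh
      exact hne ⟨Fin.ext (Nat.eq_of_beq_eq_true hh.1), Fin.ext (Nat.eq_of_beq_eq_true hh.2)⟩
    rw [e0] at h6
    refine sub_bit h6 ?_
    show ((gt (mrow D r).cc e.1) &&& (gt (mrow D r2).cc e2.1)).testBit q.1 = true
    rw [Nat.testBit_and, Bool.and_eq_true]
    exact ⟨he, he2⟩
  · intro g e e2 he he2
    have h4 := h3.2 e.1 (mem_six e)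
    rw [List.all_eq_true] at h4
    have h5 := h4 e2.1 (mem_six e2)
    rw [Bool.and_eq_true] at h5
    refine sub_bit h5.2 ?_
    show ((gt (mrow D r).mt e.1) &&& (gt (mrow D r2).mt e2.1)).testBit g.1 = true
    rw [Nat.testBit_and, Bool.and_eq_true]
    exact ⟨he, he2⟩

theorem ix_lt' (t e u e2 : Fin 6) : ix (kcN t.1 e.1) (kcN u.1 e2.1) < 37 := by
  have h1 := kc_le t e
  have h2 := kc_le u e2
  exact ix_lt ⟨kcN t.1 e.1, by omega⟩ ⟨kcN u.1 e2.1, by omega⟩

theorem forb_iff_bad' (s t u : ZMod 6) : Forbidden s t u ↔ Bad s t u := forb_iff s t u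

theorem ok36 : ∀ c : Fin 6, ok c.1 36 = true := by decide

/-- The certificate of a list of rows. -/
def certOf (h : ckA D = true) (h2 : ckB D D = true) : MenuCert (Fin D.length) where
  M := fun s q c => tM D s q c
  C := fun s q c => tC D s q c
  Y := fun r r2 t u s => tY D r r2 t u s
  Csymm := fun s q c hc => tC_symm h hc
  MC := fun s q c hc => (mt_of h hc).2
  Mne := fun s q => tM_ne h s q
  tri := fun s q q2 a b c ha hb hc hF => tri_of h s q q2 a b c ha hb hc
    ((forb_iff_bad' _ _ _).mp hF)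
  YC1 := fun r r2 t u s hs => (facts h h2 r r2 t u s hs).c1
  YC2 := fun r r2 t u s hs => (facts h h2 r r2 t u s hs).c2
  cover := fun r r2 k t u hk hF => cover_of h h2 r r2 k t u hk
    (fun hb => hF ((forb_iff_bad' _ _ _).mpr hb))
  choice0 := by
    intro s q r r2 t u e e2 hs he he2 hne
    have f := (facts h h2 r r2 t u s hs).kw q e e2 he he2 hne
    obtain ⟨c, hc, ok1, _⟩ := combo h s q _ 36 (ix_lt' t e u e2) (by decide) f (kz36 h s q)
    have hb := ok_bad ok1
    exact ⟨c, hc, fun hF => hb.1 ((forb_iff_bad' _ _ _).mp hF),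
      fun hF => hb.2 ((forb_iff_bad' _ _ _).mp hF)⟩
  choice := by
    intro s q r r2 t u e e2 hs he he2 hne r' r2' t' u' e' e2' hq hm1 hm2
    have f := (facts h h2 r r2 t u s hs).kw q e e2 he he2 hne
    have g := (facts h h2 r' r2' t' u' q hq).kz s e' e2' (mt_of h hm1).1 (mt_of h hm2).1
    obtain ⟨c, hc, ok1, ok2⟩ := combo h s q _ _ (ix_lt' t e u e2) (ix_lt' t' e' u' e2') f g
    have hb := ok_bad ok1
    have hb2 := ok_bad ok2
    exact ⟨c, hc, fun hF => hb.1 ((forb_iff_bad' _ _ _).mp hF),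
      fun hF => hb.2 ((forb_iff_bad' _ _ _).mp hF), fun hF => hb2.1 ((forb_iff_bad' _ _ _).mp hF),
      fun hF => hb2.2 ((forb_iff_bad' _ _ _).mp hF)⟩

/-- A list of rows which passes the check gives a representation. -/
theorem rep_of_check (h : ckA D = true) (h2 : ckB D D = true) (hD : 0 < D.length) :
    ∃ (U : Type) (r : Set Atom → Set (U × U)), Nonempty U ∧ IsRepresentation U r :=
  rep_of_menuCert (certOf h h2) ⟨0, hD⟩

end Pool.Agent.Helper63.MF
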