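import Pool.Agent.Helper63.MF.Frame
import Pool.Agent.Helper25.RA.Check

/-!
A fast kernel check of a finite menu certificate. Sets of types are bit masks.
-/

namespace Pool.Agent.Helper63.MF

open Pool.Agent.RA6
open Pool.Agent.Helper25.RA (allIdx allIdx_spec gt badL mem_badL bad_of_mem six mem_six Bad
  cond_true_of)

/-- bit test -/
def tb (m i : Nat) : Bool := Nat.beq (Nat.mod (Nat.shiftRight m i) 2) 1

/-- containment of masks -/
def sb (a b : Nat) : Bool := Nat.beq (Nat.land a b) a

theorem beq_of_eq {a b : Nat} (h : a = b) : Nat.beq a b = true := by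
  subst h; exact Nat.beq_refl a

theorem tb_eq (m i : Nat) : tb m i = m.testBit i := by
  have h : tb m i = decide ((m >>> i) % 2 = 1) := by
    unfold tb
    by_cases h : (m >>> i) % 2 = 1
    · rw [decide_eq_true h]
      exact beq_of_eq h
    · rw [decide_eq_false h, Bool.eq_false_iff]
      intro hh
      exact h (Nat.eq_of_beq_eq_true hh)
  rw [h, Nat.testBit_eq_decide_div_mod_eq, Nat.shiftRight_eq_div_pow]

theorem sb_bit {a b i : Nat} (h : sb a b = true) (ha : a.testBit i = true) :
    b.testBit i = true := by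
  have h1 : a &&& b = a := Nat.eq_of_beq_eq_true h
  have h2 : (a &&& b).testBit i = true := by rw [h1]; exact ha
  rw [Nat.testBit_and, Bool.and_eq_true] at h2
  exact h2.2

/-- slot of width 128 -/
def sl (p i : Nat) : Nat := Nat.shiftRight p (Nat.mul 128 i)

/-- masks of width `n < 128` in a slot -/
def slm (p i : Nat) : Nat := Nat.mod (Nat.shiftRight p (Nat.mul 128 i))
  340282366920938463463374607431768211456

/-- server number in a packed list, 8 bits each -/
def sv (p i : Nat) : Nat := Nat.mod (Nat.shiftRight p (Nat.mul 8 i)) 256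

/-- six bits -/
def s6 (p i : Nat) : Nat := Nat.mod (Nat.shiftRight p (Nat.mul 6 i)) 64

/-- One type. `mp`: packed menus towards the older types; `mm c`: the older types it may see by a
default `c`; `mt c`: the newborn types which may see it by a default `c`; `cc c`: the types joined
to it by `c`; `hs t`: the host types for the colour `t`; `kw`, `kz`: packed masks of pairs of
kills; `ws`, `zs`: packed kill sets; `y`: packed servers of the requests. -/
structure FRow where
  idx : Nat
  mp : Nat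
  mm : List Nat
  mt : List Nat
  cc : List Nat
  hs : List Nat
  kw : Nat
  kz : Nat
  ws : Nat
  zs : Nat
  y : List Nat

instance : Inhabited FRow := ⟨⟨0, 0, [], [], [], [], 0, 0, 0, 0, []⟩⟩

/-- the pairs (colour, killed colour) for `t` -/
def kl (t : Nat) : List (Nat × Nat) :=
  match t with
  | 0 => [(0, 2), (2, 0), (4, 4)]
  | 1 => [(1, 3), (3, 1), (5, 5)]
  | 2 => [(2, 4), (4, 2), (0, 0)]
  | 3 => [(3, 5), (5, 3), (1, 1)]
  | 4 => [(4, 0), (0, 4), (2, 2)]
  | 5 => [(5, 1), (1, 5), (3, 3)]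
  | _ => []

theorem mem_kl : ∀ t e c : Fin 6, Bad t e c → (e.1, c.1) ∈ kl t.1 := by decide

/-- the indices of the pairs of kills -/
def l36 : List Nat := [0, 1, 2, 3, 4, 5, 6, 7, 8, 9, 10, 11, 12, 13, 14, 15, 16, 17, 18, 19, 20, 21,
  22, 23, 24, 25, 26, 27, 28, 29, 30, 31, 32, 33, 34, 35]

theorem mem_l36 : ∀ i : Fin 36, i.1 ∈ l36 := by decide

/-- kill masks of the 36 pairs, packed -/
def KM : Nat := 53906572994812711600060441472101521193114402541741204346742526145

theorem KM_spec : ∀ k1 k2 : Fin 6, (s6 KM (6 * k1.1 + k2.1)).testBit k1.1 = true ∧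
    (s6 KM (6 * k1.1 + k2.1)).testBit k2.1 = true := by decide

/-- masks of a pair -/
def fk1 (s q : FRow) : Bool :=
  (six.all fun c => cond (tb (s6 s.mp q.idx) c)
    (tb (gt s.mm c) q.idx && (tb (gt q.mt c) s.idx && tb (gt s.cc c) q.idx)) true) &&
  (six.all fun c => cond (tb (gt s.cc c) q.idx) (tb (gt q.cc c) s.idx) true)

/-- every combination of kills leaves a colour of the menu -/
def fk2 (s q : FRow) : Bool :=
  six.all fun i => six.all fun j =>
    !(sb (s6 s.mp q.idx) (Nat.lor (s6 s.ws (Nat.add (Nat.mul 6 q.idx) i))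
      (s6 q.zs (Nat.add (Nat.mul 6 s.idx) j))))

/-- the kill sets contain the kills -/
def fk3 (s q : FRow) : Bool :=
  l36.all fun i =>
    (cond (tb (sl s.kw i) q.idx) (six.any fun j => sb (Nat.land (s6 s.mp q.idx) (s6 KM i))
      (s6 s.ws (Nat.add (Nat.mul 6 q.idx) j))) true) &&
    (cond (tb (sl q.kz i) s.idx) (six.any fun j => sb (Nat.land (s6 s.mp q.idx) (s6 KM i))
      (s6 q.zs (Nat.add (Nat.mul 6 s.idx) j))) true)

/-- triangles with three default sides -/
def fk4 (s q : FRow) : Bool :=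
  six.all fun a => cond (tb (s6 s.mp q.idx) a)
    ((badL a).all fun p => Nat.beq (Nat.land (gt q.mm p.1) (gt s.mm p.2)) 0) true

/-- single kills of a child of type `s` at a host of type `r` -/
def fk5 (s r : FRow) : Bool :=
  six.all fun t => cond (tb (gt s.hs t) r.idx)
    (tb (gt s.cc t) r.idx && (kl t).all fun p =>
      sb (gt r.cc p.1) (slm s.kw (Nat.mul 7 p.2)) && sb (gt r.mt p.1) (slm s.kz (Nat.mul 7 p.2)))
    true

/-- a request -/
def fk6 (D : List FRow) (r r2 : FRow) (t u k : Nat) : Bool :=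
  cond (Nat.blt k D.length)
    ((fun s : FRow => tb (gt s.hs t) r.idx && (tb (gt s.hs u) r2.idx &&
      (kl t).all fun p => (kl u).all fun p2 =>
        (cond (Nat.beq p.1 t && Nat.beq p2.1 u) true
          (sb (Nat.land (gt r.cc p.1) (gt r2.cc p2.1))
            (slm s.kw (Nat.add (Nat.mul 6 p.2) p2.2)))) &&
        sb (Nat.land (gt r.mt p.1) (gt r2.mt p2.1))
          (slm s.kz (Nat.add (Nat.mul 6 p.2) p2.2)))) (D.getD k default))
    (six.all fun c => cond (tb (gt r.cc c) r2.idx) ((badL c).contains (t, u)) true)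

/-- all requests at a pair -/
def fk7 (D : List FRow) (r r2 : FRow) : Bool :=
  (fun y : Nat => six.all fun t => six.all fun u =>
    fk6 D r r2 t u (sv y (Nat.add (Nat.mul 6 t) u))) (r.y.getD r2.idx 0)

/-- the check of the tables, for the rows in `D'` -/
def fA (D D' : List FRow) : Bool :=
  D'.all fun s => D.all fun q => fk1 s q && (fk2 s q && (fk3 s q && (fk4 s q && fk5 s q)))

/-- the check of the requests, for the rows in `D'` -/
def fB (D D' : List FRow) : Bool := D'.all fun r => D.all fun r2 => fk7 D r r2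

/-- numbering -/
def fI (D : List FRow) : Bool := allIdx D 0 fun i r => Nat.beq i r.idx

theorem fA_append (D D1 D2 : List FRow) (h1 : fA D D1 = true) (h2 : fA D D2 = true) :
    fA D (D1 ++ D2) = true := by
  unfold fA at *
  rw [List.all_append, h1, h2]; rfl

theorem fB_append (D D1 D2 : List FRow) (h1 : fB D D1 = true) (h2 : fB D D2 = true) :
    fB D (D1 ++ D2) = true := by
  unfold fB at *
  rw [List.all_append, h1, h2]; rfl

variable (D : List FRow)

/-- row of a type -/
def frow (i : Fin D.length) : FRow := D.getD i.1 default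

/-- menu -/
def uM (s q : Fin D.length) (c : Fin 6) : Prop := (s6 (frow D s).mp q.1).testBit c.1 = true

/-- colours which may occur -/
def uC (s q : Fin D.length) (c : Fin 6) : Prop := (gt (frow D s).cc c.1).testBit q.1 = true

/-- server -/
def uY (r r2 : Fin D.length) (t u : Fin 6) (s : Fin D.length) : Prop :=
  s.1 = sv ((frow D r).y.getD r2.1 0) (Nat.add (Nat.mul 6 t.1) u.1)

theorem frow_mem (i : Fin D.length) : frow D i ∈ D := by
  unfold frow
  rw [List.getD_eq_getElem _ _ i.2]
  exact List.getElem_mem i.2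

variable {D}

theorem frow_idx (h : fI D = true) (i : Fin D.length) : (frow D i).idx = i.1 := by
  have := allIdx_spec default D 0 _ h i.1 i.2
  have h2 := Nat.eq_of_beq_eq_true this
  rw [Nat.zero_add] at h2
  exact h2.symm

theorem fA_pair (h : fA D D = true) (s q : Fin D.length) :
    fk1 (frow D s) (frow D q) = true ∧ fk2 (frow D s) (frow D q) = true ∧
      fk3 (frow D s) (frow D q) = true ∧ fk4 (frow D s) (frow D q) = true ∧
      fk5 (frow D s) (frow D q) = true := by
  simp only [fA, List.all_eq_true] at h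
  have := h _ (frow_mem D s) _ (frow_mem D q)
  rw [Bool.and_eq_true, Bool.and_eq_true, Bool.and_eq_true, Bool.and_eq_true] at this
  exact this

theorem u_mm (hI : fI D = true) (h : fA D D = true) {s q : Fin D.length} {c : Fin 6}
    (hc : uM D s q c) : (gt (frow D s).mm c.1).testBit q.1 = true ∧
      (gt (frow D q).mt c.1).testBit s.1 = true ∧ uC D s q c := by
  have h1 := (fA_pair h s q).1
  simp only [fk1, Bool.and_eq_true, List.all_eq_true] at h1
  have h2 := h1.1 c.1 (mem_six c)
  rw [frow_idx hI, frow_idx hI] at h2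
  simp only [tb_eq] at h2
  have h3 := cond_true_of h2 hc
  rw [Bool.and_eq_true, Bool.and_eq_true] at h3
  exact h3

theorem uC_symm (hI : fI D = true) (h : fA D D = true) {s q : Fin D.length} {c : Fin 6}
    (hc : uC D s q c) : uC D q s c := by
  have h1 := (fA_pair h s q).1
  simp only [fk1, Bool.and_eq_true, List.all_eq_true] at h1
  have h2 := h1.2 c.1 (mem_six c)
  rw [frow_idx hI, frow_idx hI] at h2
  simp only [tb_eq] at h2
  exact cond_true_of h2 hc

/-- kill set of a newborn `s` at an older `q` from the hosts of the newborn -/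
def WS (D : List FRow) (s q : Fin D.length) (i : Nat) : Nat :=
  s6 (frow D s).ws (Nat.add (Nat.mul 6 q.1) i)

/-- kill set of a newborn `s` at an older `q` from the hosts of the older vertex -/
def ZS (D : List FRow) (s q : Fin D.length) (i : Nat) : Nat :=
  s6 (frow D q).zs (Nat.add (Nat.mul 6 s.1) i)

theorem lt_of_mem_six {c : Nat} (h : c ∈ six) : c < 6 := by
  simp only [six, List.mem_cons, List.not_mem_nil, or_false] at h
  omega

theorem s6_lt (p i : Nat) : s6 p i < 2 ^ 6 := Nat.mod_lt _ (by decide)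

theorem u_combo (hI : fI D = true) (h : fA D D = true) (s q : Fin D.length) (i j : Nat)
    (hi : i < 6) (hj : j < 6) : ∃ c : Fin 6, uM D s q c ∧ (WS D s q i).testBit c.1 = false ∧
      (ZS D s q j).testBit c.1 = false := by
  have h1 := (fA_pair h s q).2.1
  simp only [fk2, List.all_eq_true] at h1
  have h2 := h1 i (mem_six ⟨i, hi⟩) j (mem_six ⟨j, hj⟩)
  rw [frow_idx hI, frow_idx hI] at h2
  by_contra hno
  push Not at hno
  rw [Bool.not_eq_true', Bool.eq_false_iff] at h2
  apply h2
  unfold sb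
  apply beq_of_eq
  show s6 (frow D s).mp q.1 &&& (WS D s q i ||| ZS D s q j) = s6 (frow D s).mp q.1
  apply Nat.eq_of_testBit_eq
  intro c
  rw [Nat.testBit_and, Nat.testBit_or]
  by_cases hc : (s6 (frow D s).mp q.1).testBit c = true
  · rw [hc, Bool.true_and]
    have hc6 : c < 6 := by
      by_contra hge
      have h5 : (s6 (frow D s).mp q.1).testBit c = false :=
        Nat.testBit_lt_two_pow (lt_of_lt_of_le (s6_lt _ _) (Nat.pow_le_pow_right (by decide)
          (by omega)))
      rw [h5] at hc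
      exact absurd hc (by decide)
    have := hno ⟨c, hc6⟩ hc
    cases hW : (WS D s q i).testBit c with
    | true => rfl
    | false =>
      have h6 := this hW
      rw [Bool.false_or]
      cases hZ : (ZS D s q j).testBit c with
      | true => rfl
      | false => exact absurd hZ h6
  · rw [Bool.not_eq_true] at hc
    rw [hc, Bool.false_and]

theorem u_kw (hI : fI D = true) (h : fA D D = true) (s q : Fin D.length) (k1 k2 : Fin 6)
    (hw : (sl (frow D s).kw (6 * k1.1 + k2.1)).testBit q.1 = true) :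
    ∃ j, j < 6 ∧ (uM D s q k1 → (WS D s q j).testBit k1.1 = true) ∧
      (uM D s q k2 → (WS D s q j).testBit k2.1 = true) := by
  have h1 := (fA_pair h s q).2.2.1
  simp only [fk3, List.all_eq_true, Bool.and_eq_true] at h1
  have h2 := (h1 (6 * k1.1 + k2.1) (mem_l36 ⟨6 * k1.1 + k2.1, by omega⟩)).1
  rw [frow_idx hI] at h2
  simp only [tb_eq] at h2
  have h3 := cond_true_of h2 hw
  rw [List.any_eq_true] at h3
  obtain ⟨j, hj, h4⟩ := h3
  refine ⟨j, lt_of_mem_six hj, fun hc => sb_bit h4 ?_, fun hc => sb_bit h4 ?_⟩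
  · show (s6 (frow D s).mp q.1 &&& s6 KM (6 * k1.1 + k2.1)).testBit k1.1 = true
    rw [Nat.testBit_and, Bool.and_eq_true]
    exact ⟨hc, (KM_spec k1 k2).1⟩
  · show (s6 (frow D s).mp q.1 &&& s6 KM (6 * k1.1 + k2.1)).testBit k2.1 = true
    rw [Nat.testBit_and, Bool.and_eq_true]
    exact ⟨hc, (KM_spec k1 k2).2⟩

theorem u_kz (hI : fI D = true) (h : fA D D = true) (s q : Fin D.length) (k1 k2 : Fin 6)
    (hw : (sl (frow D q).kz (6 * k1.1 + k2.1)).testBit s.1 = true) :
    ∃ j, j < 6 ∧ (uM D s q k1 → (ZS D s q j).testBit k1.1 = true) ∧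
      (uM D s q k2 → (ZS D s q j).testBit k2.1 = true) := by
  have h1 := (fA_pair h s q).2.2.1
  simp only [fk3, List.all_eq_true, Bool.and_eq_true] at h1
  have h2 := (h1 (6 * k1.1 + k2.1) (mem_l36 ⟨6 * k1.1 + k2.1, by omega⟩)).2
  rw [frow_idx hI, frow_idx hI] at h2
  simp only [tb_eq] at h2
  have h3 := cond_true_of h2 hw
  rw [List.any_eq_true] at h3
  obtain ⟨j, hj, h4⟩ := h3
  refine ⟨j, lt_of_mem_six hj, fun hc => sb_bit h4 ?_, fun hc => sb_bit h4 ?_⟩
  · show (s6 (frow D s).mp q.1 &&& s6 KM (6 * k1.1 + k2.1)).testBit k1.1 = true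
    rw [Nat.testBit_and, Bool.and_eq_true]
    exact ⟨hc, (KM_spec k1 k2).1⟩
  · show (s6 (frow D s).mp q.1 &&& s6 KM (6 * k1.1 + k2.1)).testBit k2.1 = true
    rw [Nat.testBit_and, Bool.and_eq_true]
    exact ⟨hc, (KM_spec k1 k2).2⟩

theorem slm_sl {p i j : Nat} (h : (slm p i).testBit j = true) : (sl p i).testBit j = true := by
  have h1 : (slm p i) = (sl p i) % 2 ^ 128 := rfl
  rw [h1, Nat.testBit_mod_two_pow, Bool.and_eq_true] at h
  exact h.2

theorem u_tri (hI : fI D = true) (h : fA D D = true) (s q q2 : Fin D.length) (a b c : Fin 6)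
    (ha : uM D s q a) (hb : uM D s q2 b) (hc : uM D q q2 c) : ¬ Bad a c b := by
  intro hbad
  have h1 := (fA_pair h s q).2.2.2.1
  simp only [fk4, List.all_eq_true] at h1
  have h2 := h1 a.1 (mem_six a)
  rw [frow_idx hI] at h2
  simp only [tb_eq] at h2
  have h3 := cond_true_of h2 ha
  rw [List.all_eq_true] at h3
  have h4 := Nat.eq_of_beq_eq_true (h3 _ (mem_badL a c b hbad))
  have h5 : ((gt (frow D q).mm c.1) &&& (gt (frow D s).mm b.1)).testBit q2.1 = true := by
    rw [Nat.testBit_and, Bool.and_eq_true]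
    exact ⟨(u_mm hI h hc).1, (u_mm hI h hb).1⟩
  have h6 : ((gt (frow D q).mm c.1) &&& (gt (frow D s).mm b.1)) = 0 := h4
  rw [h6] at h5
  simp at h5

structure HostFacts (D : List FRow) (s r : Fin D.length) (t : Fin 6) : Prop where
  c1 : uC D s r t
  kw : ∀ (q : Fin D.length) (e k : Fin 6), uC D r q e → Bad t e k →
    (sl (frow D s).kw (6 * k.1 + k.1)).testBit q.1 = true
  kz : ∀ (g : Fin D.length) (e k : Fin 6), uM D g r e → Bad t e k →
    (sl (frow D s).kz (6 * k.1 + k.1)).testBit g.1 = true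

theorem hostFacts (hI : fI D = true) (h : fA D D = true) (s r : Fin D.length) (t : Fin 6)
    (hs : (gt (frow D s).hs t.1).testBit r.1 = true) : HostFacts D s r t := by
  have h1 := (fA_pair h s r).2.2.2.2
  simp only [fk5, List.all_eq_true] at h1
  have h2 := h1 t.1 (mem_six t)
  rw [frow_idx hI] at h2
  simp only [tb_eq] at h2
  have h3 := cond_true_of h2 hs
  rw [Bool.and_eq_true, List.all_eq_true] at h3
  refine ⟨h3.1, ?_, ?_⟩
  · intro q e k he hb
    have h4 := h3.2 _ (mem_kl t e k hb)
    rw [Bool.and_eq_true] at h4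
    have h5 := slm_sl (sb_bit h4.1 he)
    have e0 : Nat.mul 7 k.1 = 6 * k.1 + k.1 := by
      show 7 * k.1 = _; omega
    rw [e0] at h5
    exact h5
  · intro g e k he hb
    have h4 := h3.2 _ (mem_kl t e k hb)
    rw [Bool.and_eq_true] at h4
    have h5 := slm_sl (sb_bit h4.2 (u_mm hI h he).2.1)
    have e0 : Nat.mul 7 k.1 = 6 * k.1 + k.1 := by
      show 7 * k.1 = _; omega
    rw [e0] at h5
    exact h5

theorem fB_pair (h2 : fB D D = true) (r r2 : Fin D.length) :
    fk7 D (frow D r) (frow D r2) = true := by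
  simp only [fB, List.all_eq_true] at h2
  exact h2 _ (frow_mem D r) _ (frow_mem D r2)

theorem u_req (hI : fI D = true) (h2 : fB D D = true) (r r2 : Fin D.length) (t u : Fin 6) :
    fk6 D (frow D r) (frow D r2) t.1 u.1
      (sv ((frow D r).y.getD r2.1 0) (Nat.add (Nat.mul 6 t.1) u.1)) = true := by
  have h1 := fB_pair h2 r r2
  simp only [fk7, List.all_eq_true] at h1
  have h3 := h1 t.1 (mem_six t) u.1 (mem_six u)
  rw [frow_idx hI] at h3
  exact h3

theorem u_cover (hI : fI D = true) (h2 : fB D D = true) (r r2 : Fin D.length) (k t u : Fin 6)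
    (hk : uC D r r2 k) (hb : ¬ Bad k t u) : ∃ s, uY D r r2 t u s := by
  have h1 := u_req hI h2 r r2 t u
  by_cases hlt : sv ((frow D r).y.getD r2.1 0) (Nat.add (Nat.mul 6 t.1) u.1) < D.length
  · exact ⟨⟨_, hlt⟩, rfl⟩
  · exfalso
    unfold fk6 at h1
    have e : Nat.blt (sv ((frow D r).y.getD r2.1 0) (Nat.add (Nat.mul 6 t.1) u.1)) D.length
        = false := by
      rw [Bool.eq_false_iff]
      intro hh
      exact hlt (Nat.blt_eq.mp hh)
    rw [e] at h1
    have h3 : (six.all fun c => cond (tb (gt (frow D r).cc c) (frow D r2).idx)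
      ((badL c).contains (t.1, u.1)) true) = true := h1
    rw [List.all_eq_true] at h3
    have h4 := h3 k.1 (mem_six k)
    rw [frow_idx hI] at h4
    simp only [tb_eq] at h4
    have h5 := cond_true_of h4 hk
    exact hb (bad_of_mem _ _ _ (by simpa using h5))

structure ReqF (D : List FRow) (r r2 : Fin D.length) (t u : Fin 6) (s : Fin D.length) :
    Prop where
  h1 : HostFacts D s r t
  h2 : HostFacts D s r2 u
  kw : ∀ (q : Fin D.length) (e e2 k k2 : Fin 6), uC D r q e → uC D r2 q e2 →
    ¬ (e = t ∧ e2 = u) → Bad t e k → Bad u e2 k2 →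
    (sl (frow D s).kw (6 * k.1 + k2.1)).testBit q.1 = true
  kz : ∀ (g : Fin D.length) (e e2 k k2 : Fin 6), uM D g r e → uM D g r2 e2 →
    Bad t e k → Bad u e2 k2 → (sl (frow D s).kz (6 * k.1 + k2.1)).testBit g.1 = true

theorem reqF (hI : fI D = true) (h : fA D D = true) (h2 : fB D D = true) (r r2 : Fin D.length)
    (t u : Fin 6) (s : Fin D.length) (hs : uY D r r2 t u s) : ReqF D r r2 t u s := by
  have h1 := u_req hI h2 r r2 t u
  unfold uY at hs
  rw [← hs] at h1
  unfold fk6 at h1
  have e : Nat.blt s.1 D.length = true := Nat.blt_eq.mpr s.2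
  rw [e] at h1
  have h3 : (tb (gt (frow D s).hs t.1) (frow D r).idx &&
      (tb (gt (frow D s).hs u.1) (frow D r2).idx &&
      (kl t.1).all fun p => (kl u.1).all fun p2 =>
        (cond (Nat.beq p.1 t.1 && Nat.beq p2.1 u.1) true
          (sb (Nat.land (gt (frow D r).cc p.1) (gt (frow D r2).cc p2.1))
            (slm (frow D s).kw (Nat.add (Nat.mul 6 p.2) p2.2)))) &&
        sb (Nat.land (gt (frow D r).mt p.1) (gt (frow D r2).mt p2.1))
          (slm (frow D s).kz (Nat.add (Nat.mul 6 p.2) p2.2)))) = true := h1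
  rw [Bool.and_eq_true, Bool.and_eq_true, frow_idx hI, frow_idx hI, List.all_eq_true] at h3
  simp only [tb_eq] at h3
  refine ⟨hostFacts hI h s r t h3.1, hostFacts hI h s r2 u h3.2.1, ?_, ?_⟩
  · intro q e e2 k k2 he he2 hne hb hb2
    have h4 := h3.2.2 _ (mem_kl t e k hb)
    rw [List.all_eq_true] at h4
    have h5 := h4 _ (mem_kl u e2 k2 hb2)
    rw [Bool.and_eq_true] at h5
    have h6 := h5.1
    have e0 : (Nat.beq e.1 t.1 && Nat.beq e2.1 u.1) = false := by
      rw [Bool.eq_false_iff]
      intro hh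
      rw [Bool.and_eq_true] at hh
      exact hne ⟨Fin.ext (Nat.eq_of_beq_eq_true hh.1), Fin.ext (Nat.eq_of_beq_eq_true hh.2)⟩
    rw [e0] at h6
    refine slm_sl (sb_bit h6 ?_)
    show ((gt (frow D r).cc e.1) &&& (gt (frow D r2).cc e2.1)).testBit q.1 = true
    rw [Nat.testBit_and, Bool.and_eq_true]
    exact ⟨he, he2⟩
  · intro g e e2 k k2 he he2 hb hb2
    have h4 := h3.2.2 _ (mem_kl t e k hb)
    rw [List.all_eq_true] at h4
    have h5 := h4 _ (mem_kl u e2 k2 hb2)
    rw [Bool.and_eq_true] at h5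
    refine slm_sl (sb_bit h5.2 ?_)
    show ((gt (frow D r).mt e.1) &&& (gt (frow D r2).mt e2.1)).testBit g.1 = true
    rw [Nat.testBit_and, Bool.and_eq_true]
    exact ⟨(u_mm hI h he).2.1, (u_mm hI h he2).2.1⟩

/-- the two kills of the newborn's hosts are in one kill set -/
theorem wside (hI : fI D = true) (h : fA D D = true) {r r2 : Fin D.length} {t u : Fin 6}
    {s : Fin D.length} (F : ReqF D r r2 t u s) (q : Fin D.length) (e e2 : Fin 6)
    (he : uC D r q e) (he2 : uC D r2 q e2) (hne : ¬ (e = t ∧ e2 = u)) :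
    ∃ j, j < 6 ∧ ∀ c, uM D s q c → (Bad t e c ∨ Bad u e2 c) →
      (WS D s q j).testBit c.1 = true := by
  by_cases h1 : ∃ k, Bad t e k
  · obtain ⟨k, hk⟩ := h1
    have uk : ∀ c, Bad t e c → c = k := fun c hc => bad_unique t e c k hc hk
    by_cases h2 : ∃ k2, Bad u e2 k2
    · obtain ⟨k2, hk2⟩ := h2
      have uk2 : ∀ c, Bad u e2 c → c = k2 := fun c hc => bad_unique u e2 c k2 hc hk2
      obtain ⟨j, hj, a1, a2⟩ := u_kw hI h s q k k2 (F.kw q e e2 k k2 he he2 hne hk hk2)
      refine ⟨j, hj, fun c hc hb => ?_⟩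
      rcases hb with hb | hb
      · have := uk c hb; subst this; exact a1 hc
      · have := uk2 c hb; subst this; exact a2 hc
    · obtain ⟨j, hj, a1, _⟩ := u_kw hI h s q k k (F.h1.kw q e k he hk)
      refine ⟨j, hj, fun c hc hb => ?_⟩
      rcases hb with hb | hb
      · have := uk c hb; subst this; exact a1 hc
      · exact absurd ⟨c, hb⟩ h2
  · by_cases h2 : ∃ k2, Bad u e2 k2
    · obtain ⟨k2, hk2⟩ := h2
      have uk2 : ∀ c, Bad u e2 c → c = k2 := fun c hc => bad_unique u e2 c k2 hc hk2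
      obtain ⟨j, hj, a1, _⟩ := u_kw hI h s q k2 k2 (F.h2.kw q e2 k2 he2 hk2)
      refine ⟨j, hj, fun c hc hb => ?_⟩
      rcases hb with hb | hb
      · exact absurd ⟨c, hb⟩ h1
      · have := uk2 c hb; subst this; exact a1 hc
    · refine ⟨0, by decide, fun c hc hb => ?_⟩
      rcases hb with hb | hb
      · exact absurd ⟨c, hb⟩ h1
      · exact absurd ⟨c, hb⟩ h2
where
  bad_unique : ∀ t e c k : Fin 6, Bad t e c → Bad t e k → c = k := by decide

/-- the two kills of the hosts of the older vertex are in one kill set -/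
theorem zside (hI : fI D = true) (h : fA D D = true) {r r2 : Fin D.length} {t u : Fin 6}
    {q : Fin D.length} (F : ReqF D r r2 t u q) (s : Fin D.length) (e e2 : Fin 6)
    (he : uM D s r e) (he2 : uM D s r2 e2) :
    ∃ j, j < 6 ∧ ∀ c, uM D s q c → (Bad t e c ∨ Bad u e2 c) →
      (ZS D s q j).testBit c.1 = true := by
  by_cases h1 : ∃ k, Bad t e k
  · obtain ⟨k, hk⟩ := h1
    have uk : ∀ c, Bad t e c → c = k := fun c hc => bad_unique t e c k hc hk
    by_cases h2 : ∃ k2, Bad u e2 k2
    · obtain ⟨k2, hk2⟩ := h2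
      have uk2 : ∀ c, Bad u e2 c → c = k2 := fun c hc => bad_unique u e2 c k2 hc hk2
      obtain ⟨j, hj, a1, a2⟩ := u_kz hI h s q k k2 (F.kz s e e2 k k2 he he2 hk hk2)
      refine ⟨j, hj, fun c hc hb => ?_⟩
      rcases hb with hb | hb
      · have := uk c hb; subst this; exact a1 hc
      · have := uk2 c hb; subst this; exact a2 hc
    · obtain ⟨j, hj, a1, _⟩ := u_kz hI h s q k k (F.h1.kz s e k he hk)
      refine ⟨j, hj, fun c hc hb => ?_⟩
      rcases hb with hb | hb
      · have := uk c hb; subst this; exact a1 hc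
      · exact absurd ⟨c, hb⟩ h2
  · by_cases h2 : ∃ k2, Bad u e2 k2
    · obtain ⟨k2, hk2⟩ := h2
      have uk2 : ∀ c, Bad u e2 c → c = k2 := fun c hc => bad_unique u e2 c k2 hc hk2
      obtain ⟨j, hj, a1, _⟩ := u_kz hI h s q k2 k2 (F.h2.kz s e2 k2 he2 hk2)
      refine ⟨j, hj, fun c hc hb => ?_⟩
      rcases hb with hb | hb
      · exact absurd ⟨c, hb⟩ h1
      · have := uk2 c hb; subst this; exact a1 hc
    · refine ⟨0, by decide, fun c hc hb => ?_⟩
      rcases hb with hb | hb
      · exact absurd ⟨c, hb⟩ h1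
      · exact absurd ⟨c, hb⟩ h2
where
  bad_unique : ∀ t e c k : Fin 6, Bad t e c → Bad t e k → c = k := by decide

theorem forb_bad (s t u : ZMod 6) : Forbidden s t u ↔ Bad s t u := forb_iff s t u

theorem tf_absurd {b : Bool} (h1 : b = true) (h2 : b = false) : False := by
  rw [h1] at h2; exact absurd h2 (by decide)

/-- The certificate of a list of rows. -/
def fcert (hI : fI D = true) (h : fA D D = true) (h2 : fB D D = true) :
    MenuCert (Fin D.length) where
  M := fun s q c => uM D s q c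
  C := fun s q c => uC D s q c
  Y := fun r r2 t u s => uY D r r2 t u s
  Csymm := fun s q c hc => uC_symm hI h hc
  MC := fun s q c hc => (u_mm hI h hc).2.2
  Mne := fun s q => (u_combo hI h s q 0 0 (by decide) (by decide)).imp fun _ hc => hc.1
  tri := fun s q q2 a b c ha hb hc hF => u_tri hI h s q q2 a b c ha hb hc
    ((forb_bad _ _ _).mp hF)
  YC1 := fun r r2 t u s hs => (reqF hI h h2 r r2 t u s hs).h1.c1
  YC2 := fun r r2 t u s hs => (reqF hI h h2 r r2 t u s hs).h2.c1
  cover := fun r r2 k t u hk hF => u_cover hI h2 r r2 k t u hk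
    (fun hb => hF ((forb_bad _ _ _).mpr hb))
  choice0 := by
    intro s q r r2 t u e e2 hs he he2 hne
    have F := reqF hI h h2 r r2 t u s hs
    obtain ⟨j, hj, hW⟩ := wside hI h F q e e2 he he2 hne
    obtain ⟨c, hc, c1, _⟩ := u_combo hI h s q j 0 hj (by decide)
    exact ⟨c, hc, fun hF => tf_absurd (hW c hc (Or.inl ((forb_bad _ _ _).mp hF))) c1,
      fun hF => tf_absurd (hW c hc (Or.inr ((forb_bad _ _ _).mp hF))) c1⟩
  choice := by
    intro s q r r2 t u e e2 hs he he2 hne r' r2' t' u' e' e2' hq hm1 hm2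
    have F := reqF hI h h2 r r2 t u s hs
    have G := reqF hI h h2 r' r2' t' u' q hq
    obtain ⟨j, hj, hW⟩ := wside hI h F q e e2 he he2 hne
    obtain ⟨j', hj', hZ⟩ := zside hI h G s e' e2' hm1 hm2
    obtain ⟨c, hc, c1, c2⟩ := u_combo hI h s q j j' hj hj'
    exact ⟨c, hc, fun hF => tf_absurd (hW c hc (Or.inl ((forb_bad _ _ _).mp hF))) c1,
      fun hF => tf_absurd (hW c hc (Or.inr ((forb_bad _ _ _).mp hF))) c1,
      fun hF => tf_absurd (hZ c hc (Or.inl ((forb_bad _ _ _).mp hF))) c2,
      fun hF => tf_absurd (hZ c hc (Or.inr ((forb_bad _ _ _).mp hF))) c2⟩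

/-- A list of rows which passes the check gives a representation. -/
theorem rep_of_fast (hI : fI D = true) (h : fA D D = true) (h2 : fB D D = true)
    (hD : 0 < D.length) :
    ∃ (U : Type) (r : Set Atom → Set (U × U)), Nonempty U ∧ IsRepresentation U r :=
  rep_of_menuCert (fcert hI h h2) ⟨0, hD⟩

end Pool.Agent.Helper63.MF
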