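import Pool.Agent.Helper63.MF.Frame2
import Pool.Agent.Helper63.MF.Fast

/-!
A kernel check of a finite menu certificate with local information (at most 32 types).
-/

namespace Pool.Agent.Helper63.MF2

open Pool.Agent.RA6
open Pool.Agent.Helper25.RA (allIdx allIdx_spec gt badL mem_badL bad_of_mem six mem_six Bad
  cond_true_of)
open Pool.Agent.Helper63.MF (tb sb tb_eq sb_bit sl slm slm_sl sv s6 kl mem_kl l36 mem_l36
  KM KM_spec lt_of_mem_six s6_lt tf_absurd forb_bad)

/-- slot of width 32 -/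
def sw (p i : Nat) : Nat := Nat.shiftRight p (Nat.mul 32 i)

/-- 32 bits of a slot -/
def swm (p i : Nat) : Nat := Nat.mod (Nat.shiftRight p (Nat.mul 32 i)) 4294967296

theorem swm_sw {p i j : Nat} (h : (swm p i).testBit j = true) : (sw p i).testBit j = true := by
  have h1 : (swm p i) = (sw p i) % 2 ^ 32 := rfl
  rw [h1, Nat.testBit_mod_two_pow, Bool.and_eq_true] at h
  exact h.2

/-- killed colours of the pairs, packed -/
def KT : Nat := 3294226129282172268355572489693664990997499671592276360190496772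

/-- killed colours -/
def km (t e : Nat) : Nat := s6 KT (Nat.add (Nat.mul 6 t) e)

theorem km_spec : ∀ t e c : Fin 6, Bad t e c → (km t.1 e.1).testBit c.1 = true := by decide

theorem bad_unique : ∀ t e c k : Fin 6, Bad t e c → Bad t e k → c = k := by decide

/-- One type. `nn c`: the older or younger types `q` such that this type may be joined by `c` to a
`q` of which it is not a host; `pm`, `qm`: tables of the second kills; the rest as in `FRow`. -/
structure GRow where
  idx : Nat
  mp : Nat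
  mm : List Nat
  mt : List Nat
  cc : List Nat
  nn : List Nat
  hs : List Nat
  kw : Nat
  kz : Nat
  ws : Nat
  zs : Nat
  pm : List Nat
  qm : List Nat
  y : List Nat

instance : Inhabited GRow := ⟨⟨0, 0, [], [], [], [], [], 0, 0, 0, 0, [], [], []⟩⟩

/-- the slots of kill sets -/
def l16 : List Nat := [0, 1, 2, 3, 4, 5, 6, 7, 8, 9, 10, 11, 12, 13, 14, 15]

theorem mem_l16 : ∀ i : Fin 16, i.1 ∈ l16 := by decide

theorem lt_of_mem_l16 {c : Nat} (h : c ∈ l16) : c < 16 := by
  simp only [l16, List.mem_cons, List.not_mem_nil, or_false] at h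
  omega

/-- masks of a pair -/
def g1 (s q : GRow) : Bool :=
  (six.all fun c => cond (tb (s6 s.mp q.idx) c)
    (tb (gt s.mm c) q.idx && (tb (gt q.mt c) s.idx && (tb (gt s.cc c) q.idx &&
      (tb (gt s.nn c) q.idx && tb (gt q.nn c) s.idx)))) true) &&
  (six.all fun c => cond (tb (gt s.cc c) q.idx) (tb (gt q.cc c) s.idx) true)

/-- every combination of kills leaves a colour of the menu -/
def g2 (s q : GRow) : Bool :=
  l16.all fun i => l16.all fun j =>
    !(sb (s6 s.mp q.idx) (Nat.lor (s6 s.ws (Nat.add (Nat.mul 16 q.idx) i))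
      (s6 q.zs (Nat.add (Nat.mul 16 s.idx) j))))

/-- the kill sets contain the kills -/
def g3 (s q : GRow) : Bool :=
  l36.all fun i =>
    (cond (tb (sl s.kw i) q.idx) (l16.any fun j => sb (Nat.land (s6 s.mp q.idx) (s6 KM i))
      (s6 s.ws (Nat.add (Nat.mul 16 q.idx) j))) true) &&
    (cond (tb (sl q.kz i) s.idx) (l16.any fun j => sb (Nat.land (s6 s.mp q.idx) (s6 KM i))
      (s6 q.zs (Nat.add (Nat.mul 16 s.idx) j))) true)

/-- triangles with three default sides -/
def g4 (s q : GRow) : Bool :=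
  six.all fun a => cond (tb (s6 s.mp q.idx) a)
    ((badL a).all fun p => Nat.beq (Nat.land (gt q.mm p.1) (gt s.mm p.2)) 0) true

/-- single kills of a child of type `s` at a host of type `r` -/
def g5 (s r : GRow) : Bool :=
  six.all fun t => cond (tb (gt s.hs t) r.idx)
    (tb (gt s.cc t) r.idx && (tb (gt s.nn t) r.idx && (kl t).all fun p =>
      sb (gt r.nn p.1) (slm s.kw (Nat.mul 7 p.2)) && sb (gt r.mt p.1) (slm s.kz (Nat.mul 7 p.2))))
    true

/-- the second kills of a recipe -/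
def g6b (s r r2 : GRow) (t u : Nat) : Bool :=
  (kl u).all fun p2 =>
    sb (gt r2.nn p2.1) (swm (s.pm.getD r.idx 0) (Nat.add (Nat.mul 12 t) p2.2)) &&
    ((cond (Nat.beq p2.1 u) true
      (sb (gt r2.nn p2.1) (swm (s.pm.getD r.idx 0) (Nat.add (Nat.mul 12 t) (Nat.add 6 p2.2))))) &&
    sb (gt r2.mt p2.1) (swm (s.qm.getD r.idx 0) (Nat.add (Nat.mul 6 t) p2.2)))

/-- a request -/
def g6 (D : List GRow) (r r2 : GRow) (t u k : Nat) : Bool :=
  cond (Nat.blt k D.length)
    ((fun s : GRow => tb (gt s.hs t) r.idx && (tb (gt s.hs u) r2.idx &&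
      (((kl t).all fun p => (kl u).all fun p2 =>
        (cond (Nat.beq p.1 t && Nat.beq p2.1 u) true
          (sb (Nat.land (gt r.nn p.1) (gt r2.nn p2.1))
            (slm s.kw (Nat.add (Nat.mul 6 p.2) p2.2)))) &&
        sb (Nat.land (gt r.mt p.1) (gt r2.mt p2.1))
          (slm s.kz (Nat.add (Nat.mul 6 p.2) p2.2))) && g6b s r r2 t u))) (D.getD k default))
    (six.all fun c => cond (tb (gt r.cc c) r2.idx) ((badL c).contains (t, u)) true)

/-- all requests at a pair -/
def g7 (D : List GRow) (r r2 : GRow) : Bool :=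
  (fun y y2 : Nat => six.all fun t => six.all fun u =>
    Nat.beq (sv y (Nat.add (Nat.mul 6 t) u)) (sv y2 (Nat.add (Nat.mul 6 u) t)) &&
    g6 D r r2 t u (sv y (Nat.add (Nat.mul 6 t) u))) (r.y.getD r2.idx 0) (r2.y.getD r.idx 0)

/-- a shared host of type `r` -/
def g8 (s q r : GRow) : Bool :=
  (fun m P Q : Nat => six.all fun t => cond (tb (gt s.hs t) r.idx)
    (six.all fun e => cond (tb (gt q.hs e) r.idx)
      ((fun k1 f : Nat =>
        !(sb m k1) &&
        ((six.all fun k3 => cond (tb (sw Q (Nat.add (Nat.mul 6 e) k3)) s.idx)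
          (!(sb m (Nat.lor k1 (Nat.shiftLeft 1 k3)))) true) &&
        (six.all fun k2 => cond (tb (sw P (Nat.add (Nat.mul 12 t) (Nat.add f k2))) q.idx)
          (!(sb m (Nat.lor k1 (Nat.shiftLeft 1 k2))) &&
          (six.all fun k3 => cond (tb (sw Q (Nat.add (Nat.mul 6 e) k3)) s.idx)
            (!(sb m (Nat.lor (Nat.lor k1 (Nat.shiftLeft 1 k2)) (Nat.shiftLeft 1 k3)))) true))
          true))) (km t e) (cond (Nat.beq e t) 6 0)) true) true)
    (s6 s.mp q.idx) (s.pm.getD r.idx 0) (q.qm.getD r.idx 0)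

/-- two shared hosts -/
def g9 (D : List GRow) (r r2 : GRow) : Bool :=
  (fun y : Nat => six.all fun t => six.all fun u =>
    (fun k : Nat => cond (Nat.blt k D.length) ((fun s : GRow => six.all fun e => six.all fun e2 =>
      (fun j : Nat => cond (Nat.blt j D.length) (cond (Nat.beq e t && Nat.beq e2 u) true
        (!(sb (s6 s.mp j) (Nat.lor (km t e) (km u e2))))) true)
        (sv y (Nat.add (Nat.mul 6 e) e2))) (D.getD k default)) true)
      (sv y (Nat.add (Nat.mul 6 t) u))) (r.y.getD r2.idx 0)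

/-- the check of the tables, for the rows in `D'` -/
def gA (D D' : List GRow) : Bool :=
  D'.all fun s => D.all fun q => g1 s q && (g2 s q && (g3 s q && (g4 s q && g5 s q)))

/-- the check of the requests, for the rows in `D'` -/
def gB (D D' : List GRow) : Bool := D'.all fun r => D.all fun r2 => g7 D r r2

/-- shared hosts, for the rows in `D'` -/
def gC (D D' : List GRow) : Bool := D'.all fun s => D.all fun q => D.all fun r => g8 s q r

/-- two shared hosts, for the rows in `D'` -/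
def gE (D D' : List GRow) : Bool := D'.all fun r => D.all fun r2 => g9 D r r2

/-- numbering -/
def gI (D : List GRow) : Bool := allIdx D 0 fun i r => Nat.beq i r.idx

theorem gA_append (D D1 D2 : List GRow) (h1 : gA D D1 = true) (h2 : gA D D2 = true) :
    gA D (D1 ++ D2) = true := by
  unfold gA at *
  rw [List.all_append, h1, h2]; rfl

theorem gB_append (D D1 D2 : List GRow) (h1 : gB D D1 = true) (h2 : gB D D2 = true) :
    gB D (D1 ++ D2) = true := by
  unfold gB at *
  rw [List.all_append, h1, h2]; rfl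

theorem gC_append (D D1 D2 : List GRow) (h1 : gC D D1 = true) (h2 : gC D D2 = true) :
    gC D (D1 ++ D2) = true := by
  unfold gC at *
  rw [List.all_append, h1, h2]; rfl

theorem gE_append (D D1 D2 : List GRow) (h1 : gE D D1 = true) (h2 : gE D D2 = true) :
    gE D (D1 ++ D2) = true := by
  unfold gE at *
  rw [List.all_append, h1, h2]; rfl

variable (D : List GRow)

/-- row of a type -/
def grow (i : Fin D.length) : GRow := D.getD i.1 default

/-- menu -/
def uM (s q : Fin D.length) (c : Fin 6) : Prop := (s6 (grow D s).mp q.1).testBit c.1 = true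

/-- colours which may occur -/
def uC (s q : Fin D.length) (c : Fin 6) : Prop := (gt (grow D s).cc c.1).testBit q.1 = true

/-- colours of a non-host -/
def uN (s q : Fin D.length) (c : Fin 6) : Prop := (gt (grow D s).nn c.1).testBit q.1 = true

/-- server -/
def uY (r r2 : Fin D.length) (t u : Fin 6) (s : Fin D.length) : Prop :=
  s.1 = sv ((grow D r).y.getD r2.1 0) (Nat.add (Nat.mul 6 t.1) u.1)

theorem grow_mem (i : Fin D.length) : grow D i ∈ D := by
  unfold grow
  rw [List.getD_eq_getElem _ _ i.2]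
  exact List.getElem_mem i.2

variable {D}

theorem grow_idx (h : gI D = true) (i : Fin D.length) : (grow D i).idx = i.1 := by
  have := allIdx_spec default D 0 _ h i.1 i.2
  have h2 := Nat.eq_of_beq_eq_true this
  rw [Nat.zero_add] at h2
  exact h2.symm

theorem gA_pair (h : gA D D = true) (s q : Fin D.length) :
    g1 (grow D s) (grow D q) = true ∧ g2 (grow D s) (grow D q) = true ∧
      g3 (grow D s) (grow D q) = true ∧ g4 (grow D s) (grow D q) = true ∧
      g5 (grow D s) (grow D q) = true := by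
  simp only [gA, List.all_eq_true] at h
  have := h _ (grow_mem D s) _ (grow_mem D q)
  rw [Bool.and_eq_true, Bool.and_eq_true, Bool.and_eq_true, Bool.and_eq_true] at this
  exact this

structure MM (D : List GRow) (s q : Fin D.length) (c : Fin 6) : Prop where
  mm : (gt (grow D s).mm c.1).testBit q.1 = true
  mt : (gt (grow D q).mt c.1).testBit s.1 = true
  cc : uC D s q c
  n1 : uN D s q c
  n2 : uN D q s c

theorem u_mm (hI : gI D = true) (h : gA D D = true) {s q : Fin D.length} {c : Fin 6}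
    (hc : uM D s q c) : MM D s q c := by
  have h1 := (gA_pair h s q).1
  simp only [g1, Bool.and_eq_true, List.all_eq_true] at h1
  have h2 := h1.1 c.1 (mem_six c)
  rw [grow_idx hI, grow_idx hI] at h2
  simp only [tb_eq] at h2
  have h3 := cond_true_of h2 hc
  rw [Bool.and_eq_true, Bool.and_eq_true, Bool.and_eq_true, Bool.and_eq_true] at h3
  exact ⟨h3.1, h3.2.1, h3.2.2.1, h3.2.2.2.1, h3.2.2.2.2⟩

theorem uC_symm (hI : gI D = true) (h : gA D D = true) {s q : Fin D.length} {c : Fin 6}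
    (hc : uC D s q c) : uC D q s c := by
  have h1 := (gA_pair h s q).1
  simp only [g1, Bool.and_eq_true, List.all_eq_true] at h1
  have h2 := h1.2 c.1 (mem_six c)
  rw [grow_idx hI, grow_idx hI] at h2
  simp only [tb_eq] at h2
  exact cond_true_of h2 hc

/-- kill set of a newborn `s` at an older `q` from the hosts of the newborn -/
def WS (D : List GRow) (s q : Fin D.length) (i : Nat) : Nat :=
  s6 (grow D s).ws (Nat.add (Nat.mul 16 q.1) i)

/-- kill set of a newborn `s` at an older `q` from the hosts of the older vertex -/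
def ZS (D : List GRow) (s q : Fin D.length) (i : Nat) : Nat :=
  s6 (grow D q).zs (Nat.add (Nat.mul 16 s.1) i)

/-- a menu which is not contained in a mask has a colour outside it -/
theorem outside (hI : gI D = true) (s q : Fin D.length) (k : Nat)
    (h : sb (s6 (grow D s).mp (grow D q).idx) k = false) :
    ∃ c : Fin 6, uM D s q c ∧ k.testBit c.1 = false := by
  rw [grow_idx hI] at h
  by_contra hno
  push Not at hno
  rw [Bool.eq_false_iff] at h
  apply h
  unfold sb
  apply Pool.Agent.Helper63.MF.beq_of_eq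
  show s6 (grow D s).mp q.1 &&& k = s6 (grow D s).mp q.1
  apply Nat.eq_of_testBit_eq
  intro c
  rw [Nat.testBit_and]
  by_cases hc : (s6 (grow D s).mp q.1).testBit c = true
  · rw [hc, Bool.true_and]
    have hc6 : c < 6 := by
      by_contra hge
      have h5 : (s6 (grow D s).mp q.1).testBit c = false :=
        Nat.testBit_lt_two_pow (lt_of_lt_of_le (s6_lt _ _) (Nat.pow_le_pow_right (by decide)
          (by omega)))
      rw [h5] at hc
      exact absurd hc (by decide)
    have := hno ⟨c, hc6⟩ hc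
    cases hW : k.testBit c with
    | true => rfl
    | false => exact absurd hW this
  · rw [Bool.not_eq_true] at hc
    rw [hc, Bool.false_and]

theorem lor_false {a b c : Nat} (h : (Nat.lor a b).testBit c = false) :
    a.testBit c = false ∧ b.testBit c = false := by
  have h1 : (a ||| b).testBit c = false := h
  rw [Nat.testBit_or, Bool.or_eq_false_iff] at h1
  exact h1

theorem shl_false {k c : Nat} (h : (Nat.shiftLeft 1 k).testBit c = false) : c ≠ k := by
  intro hh
  subst hh
  have h1 : (1 <<< c).testBit c = false := h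
  rw [Nat.one_shiftLeft, Nat.testBit_two_pow_self] at h1
  exact absurd h1 (by decide)

theorem u_combo (hI : gI D = true) (h : gA D D = true) (s q : Fin D.length) (i j : Nat)
    (hi : i < 16) (hj : j < 16) : ∃ c : Fin 6, uM D s q c ∧ (WS D s q i).testBit c.1 = false ∧
      (ZS D s q j).testBit c.1 = false := by
  have h1 := (gA_pair h s q).2.1
  simp only [g2, List.all_eq_true] at h1
  have h2 := h1 i (mem_l16 ⟨i, hi⟩) j (mem_l16 ⟨j, hj⟩)
  rw [Bool.not_eq_true'] at h2
  obtain ⟨c, hc, h3⟩ := outside hI s q _ h2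
  have h4 := lor_false h3
  rw [grow_idx hI, grow_idx hI] at h4
  exact ⟨c, hc, h4⟩

theorem u_kw (hI : gI D = true) (h : gA D D = true) (s q : Fin D.length) (k1 k2 : Fin 6)
    (hw : (sl (grow D s).kw (6 * k1.1 + k2.1)).testBit q.1 = true) :
    ∃ j, j < 16 ∧ (uM D s q k1 → (WS D s q j).testBit k1.1 = true) ∧
      (uM D s q k2 → (WS D s q j).testBit k2.1 = true) := by
  have h1 := (gA_pair h s q).2.2.1
  simp only [g3, List.all_eq_true, Bool.and_eq_true] at h1
  have h2 := (h1 (6 * k1.1 + k2.1) (mem_l36 ⟨6 * k1.1 + k2.1, by omega⟩)).1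
  rw [grow_idx hI] at h2
  simp only [tb_eq] at h2
  have h3 := cond_true_of h2 hw
  rw [List.any_eq_true] at h3
  obtain ⟨j, hj, h4⟩ := h3
  refine ⟨j, lt_of_mem_l16 hj, fun hc => sb_bit h4 ?_, fun hc => sb_bit h4 ?_⟩
  · show (s6 (grow D s).mp q.1 &&& s6 KM (6 * k1.1 + k2.1)).testBit k1.1 = true
    rw [Nat.testBit_and, Bool.and_eq_true]
    exact ⟨hc, (KM_spec k1 k2).1⟩
  · show (s6 (grow D s).mp q.1 &&& s6 KM (6 * k1.1 + k2.1)).testBit k2.1 = true
    rw [Nat.testBit_and, Bool.and_eq_true]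
    exact ⟨hc, (KM_spec k1 k2).2⟩

theorem u_kz (hI : gI D = true) (h : gA D D = true) (s q : Fin D.length) (k1 k2 : Fin 6)
    (hw : (sl (grow D q).kz (6 * k1.1 + k2.1)).testBit s.1 = true) :
    ∃ j, j < 16 ∧ (uM D s q k1 → (ZS D s q j).testBit k1.1 = true) ∧
      (uM D s q k2 → (ZS D s q j).testBit k2.1 = true) := by
  have h1 := (gA_pair h s q).2.2.1
  simp only [g3, List.all_eq_true, Bool.and_eq_true] at h1
  have h2 := (h1 (6 * k1.1 + k2.1) (mem_l36 ⟨6 * k1.1 + k2.1, by omega⟩)).2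
  rw [grow_idx hI, grow_idx hI] at h2
  simp only [tb_eq] at h2
  have h3 := cond_true_of h2 hw
  rw [List.any_eq_true] at h3
  obtain ⟨j, hj, h4⟩ := h3
  refine ⟨j, lt_of_mem_l16 hj, fun hc => sb_bit h4 ?_, fun hc => sb_bit h4 ?_⟩
  · show (s6 (grow D s).mp q.1 &&& s6 KM (6 * k1.1 + k2.1)).testBit k1.1 = true
    rw [Nat.testBit_and, Bool.and_eq_true]
    exact ⟨hc, (KM_spec k1 k2).1⟩
  · show (s6 (grow D s).mp q.1 &&& s6 KM (6 * k1.1 + k2.1)).testBit k2.1 = true
    rw [Nat.testBit_and, Bool.and_eq_true]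
    exact ⟨hc, (KM_spec k1 k2).2⟩

theorem u_tri (hI : gI D = true) (h : gA D D = true) (s q q2 : Fin D.length) (a b c : Fin 6)
    (ha : uM D s q a) (hb : uM D s q2 b) (hc : uM D q q2 c) : ¬ Bad a c b := by
  intro hbad
  have h1 := (gA_pair h s q).2.2.2.1
  simp only [g4, List.all_eq_true] at h1
  have h2 := h1 a.1 (mem_six a)
  rw [grow_idx hI] at h2
  simp only [tb_eq] at h2
  have h3 := cond_true_of h2 ha
  rw [List.all_eq_true] at h3
  have h4 := Nat.eq_of_beq_eq_true (h3 _ (mem_badL a c b hbad))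
  have h5 : ((gt (grow D q).mm c.1) &&& (gt (grow D s).mm b.1)).testBit q2.1 = true := by
    rw [Nat.testBit_and, Bool.and_eq_true]
    exact ⟨(u_mm hI h hc).mm, (u_mm hI h hb).mm⟩
  have h6 : ((gt (grow D q).mm c.1) &&& (gt (grow D s).mm b.1)) = 0 := h4
  rw [h6] at h5
  simp at h5

structure HostFacts (D : List GRow) (s r : Fin D.length) (t : Fin 6) : Prop where
  hs : (gt (grow D s).hs t.1).testBit r.1 = true
  c1 : uC D s r t
  n1 : uN D s r t
  kw : ∀ (q : Fin D.length) (e k : Fin 6), uN D r q e → Bad t e k →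
    (sl (grow D s).kw (6 * k.1 + k.1)).testBit q.1 = true
  kz : ∀ (g : Fin D.length) (e k : Fin 6), uM D g r e → Bad t e k →
    (sl (grow D s).kz (6 * k.1 + k.1)).testBit g.1 = true

theorem hostFacts (hI : gI D = true) (h : gA D D = true) (s r : Fin D.length) (t : Fin 6)
    (hs : (gt (grow D s).hs t.1).testBit r.1 = true) : HostFacts D s r t := by
  have h1 := (gA_pair h s r).2.2.2.2
  simp only [g5, List.all_eq_true] at h1
  have h2 := h1 t.1 (mem_six t)
  rw [grow_idx hI] at h2
  simp only [tb_eq] at h2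
  have h3 := cond_true_of h2 hs
  rw [Bool.and_eq_true, Bool.and_eq_true, List.all_eq_true] at h3
  refine ⟨hs, h3.1, h3.2.1, ?_, ?_⟩
  · intro q e k he hb
    have h4 := h3.2.2 _ (mem_kl t e k hb)
    rw [Bool.and_eq_true] at h4
    have h5 := slm_sl (sb_bit h4.1 he)
    have e0 : Nat.mul 7 k.1 = 6 * k.1 + k.1 := by
      show 7 * k.1 = _; omega
    rw [e0] at h5
    exact h5
  · intro g e k he hb
    have h4 := h3.2.2 _ (mem_kl t e k hb)
    rw [Bool.and_eq_true] at h4
    have h5 := slm_sl (sb_bit h4.2 (u_mm hI h he).mt)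
    have e0 : Nat.mul 7 k.1 = 6 * k.1 + k.1 := by
      show 7 * k.1 = _; omega
    rw [e0] at h5
    exact h5

theorem gB_pair (h2 : gB D D = true) (r r2 : Fin D.length) :
    g7 D (grow D r) (grow D r2) = true := by
  simp only [gB, List.all_eq_true] at h2
  exact h2 _ (grow_mem D r) _ (grow_mem D r2)

theorem u_req (hI : gI D = true) (h2 : gB D D = true) (r r2 : Fin D.length) (t u : Fin 6) :
    sv ((grow D r).y.getD r2.1 0) (Nat.add (Nat.mul 6 t.1) u.1) =
      sv ((grow D r2).y.getD r.1 0) (Nat.add (Nat.mul 6 u.1) t.1) ∧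
    g6 D (grow D r) (grow D r2) t.1 u.1
      (sv ((grow D r).y.getD r2.1 0) (Nat.add (Nat.mul 6 t.1) u.1)) = true := by
  have h1 := gB_pair h2 r r2
  simp only [g7, List.all_eq_true] at h1
  have h3 := h1 t.1 (mem_six t) u.1 (mem_six u)
  rw [grow_idx hI, grow_idx hI, Bool.and_eq_true] at h3
  exact ⟨Nat.eq_of_beq_eq_true h3.1, h3.2⟩

theorem u_cover (hI : gI D = true) (h2 : gB D D = true) (r r2 : Fin D.length) (k t u : Fin 6)
    (hk : uC D r r2 k) (hb : ¬ Bad k t u) : ∃ s, uY D r r2 t u s := by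
  have h1 := (u_req hI h2 r r2 t u).2
  by_cases hlt : sv ((grow D r).y.getD r2.1 0) (Nat.add (Nat.mul 6 t.1) u.1) < D.length
  · exact ⟨⟨_, hlt⟩, rfl⟩
  · exfalso
    unfold g6 at h1
    have e : Nat.blt (sv ((grow D r).y.getD r2.1 0) (Nat.add (Nat.mul 6 t.1) u.1)) D.length
        = false := by
      rw [Bool.eq_false_iff]
      intro hh
      exact hlt (Nat.blt_eq.mp hh)
    rw [e] at h1
    have h3 : (six.all fun c => cond (tb (gt (grow D r).cc c) (grow D r2).idx)
      ((badL c).contains (t.1, u.1)) true) = true := h1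
    rw [List.all_eq_true] at h3
    have h4 := h3 k.1 (mem_six k)
    rw [grow_idx hI] at h4
    simp only [tb_eq] at h4
    have h5 := cond_true_of h4 hk
    exact hb (bad_of_mem _ _ _ (by simpa using h5))

structure ReqF (D : List GRow) (r r2 : Fin D.length) (t u : Fin 6) (s : Fin D.length) :
    Prop where
  h1 : HostFacts D s r t
  h2 : HostFacts D s r2 u
  kw : ∀ (q : Fin D.length) (e e2 k k2 : Fin 6), uN D r q e → uN D r2 q e2 →
    ¬ (e = t ∧ e2 = u) → Bad t e k → Bad u e2 k2 →
    (sl (grow D s).kw (6 * k.1 + k2.1)).testBit q.1 = true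
  kz : ∀ (g : Fin D.length) (e e2 k k2 : Fin 6), uM D g r e → uM D g r2 e2 →
    Bad t e k → Bad u e2 k2 → (sl (grow D s).kz (6 * k.1 + k2.1)).testBit g.1 = true
  pm : ∀ (q : Fin D.length) (e2 k2 : Fin 6), uN D r2 q e2 → Bad u e2 k2 →
    (sw ((grow D s).pm.getD r.1 0) (12 * t.1 + (0 + k2.1))).testBit q.1 = true
  pm' : ∀ (q : Fin D.length) (e2 k2 : Fin 6), uN D r2 q e2 → Bad u e2 k2 → e2 ≠ u →
    (sw ((grow D s).pm.getD r.1 0) (12 * t.1 + (6 + k2.1))).testBit q.1 = true
  qm : ∀ (g : Fin D.length) (e2 k2 : Fin 6), uM D g r2 e2 → Bad u e2 k2 →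
    (sw ((grow D s).qm.getD r.1 0) (6 * t.1 + k2.1)).testBit g.1 = true

theorem reqF (hI : gI D = true) (h : gA D D = true) (h2 : gB D D = true) (r r2 : Fin D.length)
    (t u : Fin 6) (s : Fin D.length) (hs : uY D r r2 t u s) : ReqF D r r2 t u s := by
  have h1 := (u_req hI h2 r r2 t u).2
  unfold uY at hs
  rw [← hs] at h1
  unfold g6 at h1
  have e : Nat.blt s.1 D.length = true := Nat.blt_eq.mpr s.2
  rw [e] at h1
  have h3 : (tb (gt (grow D s).hs t.1) (grow D r).idx &&
      (tb (gt (grow D s).hs u.1) (grow D r2).idx &&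
      (((kl t.1).all fun p => (kl u.1).all fun p2 =>
        (cond (Nat.beq p.1 t.1 && Nat.beq p2.1 u.1) true
          (sb (Nat.land (gt (grow D r).nn p.1) (gt (grow D r2).nn p2.1))
            (slm (grow D s).kw (Nat.add (Nat.mul 6 p.2) p2.2)))) &&
        sb (Nat.land (gt (grow D r).mt p.1) (gt (grow D r2).mt p2.1))
          (slm (grow D s).kz (Nat.add (Nat.mul 6 p.2) p2.2))) &&
        g6b (grow D s) (grow D r) (grow D r2) t.1 u.1))) = true := h1
  rw [Bool.and_eq_true, Bool.and_eq_true, Bool.and_eq_true, grow_idx hI, grow_idx hI,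
    List.all_eq_true] at h3
  simp only [tb_eq] at h3
  have h6b : ∀ e2 k2 : Fin 6, Bad u e2 k2 →
      (sb (gt (grow D r2).nn e2.1) (swm ((grow D s).pm.getD r.1 0)
        (Nat.add (Nat.mul 12 t.1) k2.1)) = true) ∧
      ((cond (Nat.beq e2.1 u.1) true
        (sb (gt (grow D r2).nn e2.1) (swm ((grow D s).pm.getD r.1 0)
          (Nat.add (Nat.mul 12 t.1) (Nat.add 6 k2.1))))) = true) ∧
      (sb (gt (grow D r2).mt e2.1) (swm ((grow D s).qm.getD r.1 0)
        (Nat.add (Nat.mul 6 t.1) k2.1)) = true) := by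
    intro e2 k2 hb
    have h4 := h3.2.2.2
    unfold g6b at h4
    rw [List.all_eq_true] at h4
    have h5 := h4 _ (mem_kl u e2 k2 hb)
    rw [Bool.and_eq_true, Bool.and_eq_true, grow_idx hI] at h5
    exact h5
  refine ⟨hostFacts hI h s r t h3.1, hostFacts hI h s r2 u h3.2.1, ?_, ?_, ?_, ?_, ?_⟩
  · intro q e e2 k k2 he he2 hne hb hb2
    have h4 := h3.2.2.1 _ (mem_kl t e k hb)
    rw [List.all_eq_true] at h4
    have h5 := h4 _ (mem_kl u e2 k2 hb2)
    rw [Bool.and_eq_true] at h5
    have h6 := h5.1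
    have e0 : (Nat.beq e.1 t.1 && Nat.beq e2.1 u.1) = false := by
      rw [Bool.eq_false_iff]
      intro hh
      rw [Bool.and_eq_true] at hh
      exact hne ⟨Fin.ext (Nat.eq_of_beq_eq_true hh.1), Fin.ext (Nat.eq_of_beq_eq_true hh.2)⟩
    rw [e0] at h6
    refine slm_sl (sb_bit h6 ?_)
    show ((gt (grow D r).nn e.1) &&& (gt (grow D r2).nn e2.1)).testBit q.1 = true
    rw [Nat.testBit_and, Bool.and_eq_true]
    exact ⟨he, he2⟩
  · intro g e e2 k k2 he he2 hb hb2
    have h4 := h3.2.2.1 _ (mem_kl t e k hb)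
    rw [List.all_eq_true] at h4
    have h5 := h4 _ (mem_kl u e2 k2 hb2)
    rw [Bool.and_eq_true] at h5
    refine slm_sl (sb_bit h5.2 ?_)
    show ((gt (grow D r).mt e.1) &&& (gt (grow D r2).mt e2.1)).testBit g.1 = true
    rw [Nat.testBit_and, Bool.and_eq_true]
    exact ⟨(u_mm hI h he).mt, (u_mm hI h he2).mt⟩
  · intro q e2 k2 he2 hb
    have := swm_sw (sb_bit (h6b e2 k2 hb).1 he2)
    rw [Nat.zero_add]
    exact this
  · intro q e2 k2 he2 hb hne
    have h4 := (h6b e2 k2 hb).2.1
    have e0 : Nat.beq e2.1 u.1 = false := by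
      rw [Bool.eq_false_iff]
      intro hh
      exact hne (Fin.ext (Nat.eq_of_beq_eq_true hh))
    rw [e0] at h4
    exact swm_sw (sb_bit h4 he2)
  · intro g e2 k2 he2 hb
    exact swm_sw (sb_bit (h6b e2 k2 hb).2.2 (u_mm hI h he2).mt)

/-- the two kills of the newborn's hosts are in one kill set -/
theorem wside (hI : gI D = true) (h : gA D D = true) {r r2 : Fin D.length} {t u : Fin 6}
    {s : Fin D.length} (F : ReqF D r r2 t u s) (q : Fin D.length) (e e2 : Fin 6)
    (he : uN D r q e) (he2 : uN D r2 q e2) (hne : ¬ (e = t ∧ e2 = u)) :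
    ∃ j, j < 16 ∧ ∀ c, uM D s q c → (Bad t e c ∨ Bad u e2 c) →
      (WS D s q j).testBit c.1 = true := by
  by_cases h1 : ∃ k, Bad t e k
  · obtain ⟨k, hk⟩ := h1
    have uk : ∀ c, Bad t e c → c = k := fun c hc => bad_unique t e c k hc hk
    by_cases h2 : ∃ k2, Bad u e2 k2
    · obtain ⟨k2, hk2⟩ := h2
      have uk2 : ∀ c, Bad u e2 c → c = k2 := fun c hc => bad_unique u e2 c k2 hc hk2
      obtain ⟨j, hj, a1, a2⟩ := u_kw hI h s q k k2 (F.kw q e e2 k k2 he he2 hne hk hk2)
      refine ⟨j, hj, fun c hc hb => ?_⟩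
      rcases hb with hb | hb
      · have := uk c hb; subst this; exact a1 hc
      · have := uk2 c hb; subst this; exact a2 hc
    · obtain ⟨j, hj, a1, _⟩ := u_kw hI h s q k k (F.h1.kw q e k he hk)
      refine ⟨j, hj, fun c hc hb => ?_⟩
      rcases hb with hb | hb
      · have := uk c hb; subst this; exact a1 hc
      · exact absurd ⟨c, hb⟩ h2
  · by_cases h2 : ∃ k2, Bad u e2 k2
    · obtain ⟨k2, hk2⟩ := h2
      have uk2 : ∀ c, Bad u e2 c → c = k2 := fun c hc => bad_unique u e2 c k2 hc hk2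
      obtain ⟨j, hj, a1, _⟩ := u_kw hI h s q k2 k2 (F.h2.kw q e2 k2 he2 hk2)
      refine ⟨j, hj, fun c hc hb => ?_⟩
      rcases hb with hb | hb
      · exact absurd ⟨c, hb⟩ h1
      · have := uk2 c hb; subst this; exact a1 hc
    · refine ⟨0, by decide, fun c hc hb => ?_⟩
      rcases hb with hb | hb
      · exact absurd ⟨c, hb⟩ h1
      · exact absurd ⟨c, hb⟩ h2

/-- the two kills of the hosts of the older vertex are in one kill set -/
theorem zside (hI : gI D = true) (h : gA D D = true) {r r2 : Fin D.length} {t u : Fin 6}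
    {q : Fin D.length} (F : ReqF D r r2 t u q) (s : Fin D.length) (e e2 : Fin 6)
    (he : uM D s r e) (he2 : uM D s r2 e2) :
    ∃ j, j < 16 ∧ ∀ c, uM D s q c → (Bad t e c ∨ Bad u e2 c) →
      (ZS D s q j).testBit c.1 = true := by
  by_cases h1 : ∃ k, Bad t e k
  · obtain ⟨k, hk⟩ := h1
    have uk : ∀ c, Bad t e c → c = k := fun c hc => bad_unique t e c k hc hk
    by_cases h2 : ∃ k2, Bad u e2 k2
    · obtain ⟨k2, hk2⟩ := h2
      have uk2 : ∀ c, Bad u e2 c → c = k2 := fun c hc => bad_unique u e2 c k2 hc hk2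
      obtain ⟨j, hj, a1, a2⟩ := u_kz hI h s q k k2 (F.kz s e e2 k k2 he he2 hk hk2)
      refine ⟨j, hj, fun c hc hb => ?_⟩
      rcases hb with hb | hb
      · have := uk c hb; subst this; exact a1 hc
      · have := uk2 c hb; subst this; exact a2 hc
    · obtain ⟨j, hj, a1, _⟩ := u_kz hI h s q k k (F.h1.kz s e k he hk)
      refine ⟨j, hj, fun c hc hb => ?_⟩
      rcases hb with hb | hb
      · have := uk c hb; subst this; exact a1 hc
      · exact absurd ⟨c, hb⟩ h2
  · by_cases h2 : ∃ k2, Bad u e2 k2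
    · obtain ⟨k2, hk2⟩ := h2
      have uk2 : ∀ c, Bad u e2 c → c = k2 := fun c hc => bad_unique u e2 c k2 hc hk2
      obtain ⟨j, hj, a1, _⟩ := u_kz hI h s q k2 k2 (F.h2.kz s e2 k2 he2 hk2)
      refine ⟨j, hj, fun c hc hb => ?_⟩
      rcases hb with hb | hb
      · exact absurd ⟨c, hb⟩ h1
      · have := uk2 c hb; subst this; exact a1 hc
    · refine ⟨0, by decide, fun c hc hb => ?_⟩
      rcases hb with hb | hb
      · exact absurd ⟨c, hb⟩ h1
      · exact absurd ⟨c, hb⟩ h2

/-- a mask which contains the kill of a pair and which `g8` treats -/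
theorem shared (hI : gI D = true) (h3 : gC D D = true) (s q r : Fin D.length) (t e : Fin 6)
    (hs : (gt (grow D s).hs t.1).testBit r.1 = true)
    (hq : (gt (grow D q).hs e.1).testBit r.1 = true) (f : Nat)
    (hf : f = cond (Nat.beq e.1 t.1) 6 0) :
    (∃ c, uM D s q c ∧ ¬ Bad t e c) ∧
    (∀ k3 : Fin 6, (sw ((grow D q).qm.getD r.1 0) (6 * e.1 + k3.1)).testBit s.1 = true →
      ∃ c, uM D s q c ∧ ¬ Bad t e c ∧ c ≠ k3) ∧
    (∀ k2 : Fin 6, (sw ((grow D s).pm.getD r.1 0) (12 * t.1 + (f + k2.1))).testBit q.1 = true →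
      (∃ c, uM D s q c ∧ ¬ Bad t e c ∧ c ≠ k2) ∧
      (∀ k3 : Fin 6, (sw ((grow D q).qm.getD r.1 0) (6 * e.1 + k3.1)).testBit s.1 = true →
        ∃ c, uM D s q c ∧ ¬ Bad t e c ∧ c ≠ k2 ∧ c ≠ k3)) := by
  simp only [gC, List.all_eq_true] at h3
  have h4 := h3 _ (grow_mem D s) _ (grow_mem D q) _ (grow_mem D r)
  simp only [g8, List.all_eq_true] at h4
  have h5 := h4 t.1 (mem_six t)
  rw [grow_idx hI r] at h5
  rw [tb_eq] at h5
  have h6 := cond_true_of h5 hs
  rw [List.all_eq_true] at h6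
  have h7 := h6 e.1 (mem_six e)
  rw [tb_eq] at h7
  have h8 := cond_true_of h7 hq
  rw [← hf] at h8
  rw [Bool.and_eq_true, Bool.and_eq_true, List.all_eq_true, List.all_eq_true] at h8
  obtain ⟨a1, a2, a3⟩ := h8
  have nb : ∀ c : Fin 6, (km t.1 e.1).testBit c.1 = false → ¬ Bad t e c := fun c hc hb =>
    tf_absurd (km_spec t e c hb) hc
  refine ⟨?_, ?_, ?_⟩
  · rw [Bool.not_eq_true'] at a1
    obtain ⟨c, hc, h9⟩ := outside hI s q _ a1
    exact ⟨c, hc, nb c h9⟩
  · intro k3 hk3
    have a4 := a2 k3.1 (mem_six k3)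
    rw [tb_eq, grow_idx hI s] at a4
    have a5 := cond_true_of a4 hk3
    rw [Bool.not_eq_true'] at a5
    obtain ⟨c, hc, h9⟩ := outside hI s q _ a5
    have h10 := lor_false h9
    exact ⟨c, hc, nb c h10.1, fun hh => shl_false h10.2 (congrArg Fin.val hh)⟩
  · intro k2 hk2
    have a4 := a3 k2.1 (mem_six k2)
    rw [tb_eq, grow_idx hI q] at a4
    have a5 := cond_true_of a4 hk2
    rw [Bool.and_eq_true, List.all_eq_true] at a5
    refine ⟨?_, ?_⟩
    · have a6 := a5.1
      rw [Bool.not_eq_true'] at a6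
      obtain ⟨c, hc, h9⟩ := outside hI s q _ (by rw [grow_idx hI q]; exact a6)
      have h10 := lor_false h9
      exact ⟨c, hc, nb c h10.1, fun hh => shl_false h10.2 (congrArg Fin.val hh)⟩
    · intro k3 hk3
      have a7 := a5.2 k3.1 (mem_six k3)
      rw [tb_eq, grow_idx hI s] at a7
      have a8 := cond_true_of a7 hk3
      rw [Bool.not_eq_true'] at a8
      obtain ⟨c, hc, h9⟩ := outside hI s q _ (by rw [grow_idx hI q]; exact a8)
      have h10 := lor_false h9
      have h11 := lor_false h10.1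
      exact ⟨c, hc, nb c h11.1, fun hh => shl_false h11.2 (congrArg Fin.val hh),
        fun hh => shl_false h10.2 (congrArg Fin.val hh)⟩

theorem two_shared (hI : gI D = true) (h4 : gE D D = true) (r r2 s q : Fin D.length)
    (t u e e2 : Fin 6) (hs : uY D r r2 t u s) (hq : uY D r r2 e e2 q)
    (hne : ¬ (e = t ∧ e2 = u)) : ∃ c, uM D s q c ∧ ¬ Bad t e c ∧ ¬ Bad u e2 c := by
  simp only [gE, List.all_eq_true] at h4
  have h5 := h4 _ (grow_mem D r) _ (grow_mem D r2)
  simp only [g9, List.all_eq_true] at h5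
  have h6 := h5 t.1 (mem_six t) u.1 (mem_six u)
  rw [grow_idx hI r2] at h6
  unfold uY at hs hq
  rw [← hs] at h6
  have e1 : Nat.blt s.1 D.length = true := Nat.blt_eq.mpr s.2
  rw [e1] at h6
  have h7 : (six.all fun e => six.all fun e2 =>
      (fun j : Nat => cond (Nat.blt j D.length) (cond (Nat.beq e t.1 && Nat.beq e2 u.1) true
        (!(sb (s6 (grow D s).mp j) (Nat.lor (km t.1 e) (km u.1 e2))))) true)
        (sv ((grow D r).y.getD r2.1 0) (Nat.add (Nat.mul 6 e) e2))) = true := h6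
  rw [List.all_eq_true] at h7
  have h8 := h7 e.1 (mem_six e)
  rw [List.all_eq_true] at h8
  have h9 := h8 e2.1 (mem_six e2)
  simp only at h9
  rw [← hq] at h9
  have e3 : Nat.blt q.1 D.length = true := Nat.blt_eq.mpr q.2
  have e0 : (Nat.beq e.1 t.1 && Nat.beq e2.1 u.1) = false := by
    rw [Bool.eq_false_iff]
    intro hh
    rw [Bool.and_eq_true] at hh
    exact hne ⟨Fin.ext (Nat.eq_of_beq_eq_true hh.1), Fin.ext (Nat.eq_of_beq_eq_true hh.2)⟩
  rw [e3, e0] at h9
  have h10 : (!(sb (s6 (grow D s).mp q.1) (Nat.lor (km t.1 e.1) (km u.1 e2.1)))) = true := h9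
  rw [Bool.not_eq_true'] at h10
  obtain ⟨c, hc, h11⟩ := outside hI s q _ (by rw [grow_idx hI q]; exact h10)
  have h12 := lor_false h11
  exact ⟨c, hc, fun hb => tf_absurd (km_spec t e c hb) h12.1,
    fun hb => tf_absurd (km_spec u e2 c hb) h12.2⟩

/-- The certificate of a list of rows. -/
def gcert (hI : gI D = true) (h : gA D D = true) (h2 : gB D D = true) (h3 : gC D D = true)
    (h4 : gE D D = true) : MenuCert (Fin D.length) where
  M := fun s q c => uM D s q c
  C := fun s q c => uC D s q c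
  N := fun s q c => uN D s q c
  Y := fun r r2 t u s => uY D r r2 t u s
  Csymm := fun s q c hc => uC_symm hI h hc
  Ysymm := fun r r2 t u s hs => hs.trans (u_req hI h2 r r2 t u).1
  MC := fun s q c hc => (u_mm hI h hc).cc
  Mne := fun s q => (u_combo hI h s q 0 0 (by decide) (by decide)).imp fun _ hc => hc.1
  tri := fun s q q2 a b c ha hb hc hF => u_tri hI h s q q2 a b c ha hb hc
    ((forb_bad _ _ _).mp hF)
  YC := fun r r2 t u s hs => (reqF hI h h2 r r2 t u s hs).h1.c1
  MN1 := fun r q e he => (u_mm hI h he).n1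
  MN2 := fun r q e he => (u_mm hI h he).n2
  YN := fun q r2 e u r hs => (reqF hI h h2 q r2 e u r hs).h1.n1
  cover := fun r r2 k t u hk hF => u_cover hI h2 r r2 k t u hk
    (fun hb => hF ((forb_bad _ _ _).mpr hb))
  choice0 := by
    intro s q r r2 t u e e2 hs he he2 hne
    have F := reqF hI h h2 r r2 t u s hs
    obtain ⟨j, hj, hW⟩ := wside hI h F q e e2 he he2 hne
    obtain ⟨c, hc, c1, _⟩ := u_combo hI h s q j 0 hj (by decide)
    exact ⟨c, hc, fun hF => tf_absurd (hW c hc (Or.inl ((forb_bad _ _ _).mp hF))) c1,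
      fun hF => tf_absurd (hW c hc (Or.inr ((forb_bad _ _ _).mp hF))) c1⟩
  choice1 := by
    intro s q r r2 t u e e2 hs he he2 hne r' r2' t' u' e' e2' hq hm1 hm2
    have F := reqF hI h h2 r r2 t u s hs
    have G := reqF hI h h2 r' r2' t' u' q hq
    obtain ⟨j, hj, hW⟩ := wside hI h F q e e2 he he2 hne
    obtain ⟨j', hj', hZ⟩ := zside hI h G s e' e2' hm1 hm2
    obtain ⟨c, hc, c1, c2⟩ := u_combo hI h s q j j' hj hj'
    exact ⟨c, hc, fun hF => tf_absurd (hW c hc (Or.inl ((forb_bad _ _ _).mp hF))) c1,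
      fun hF => tf_absurd (hW c hc (Or.inr ((forb_bad _ _ _).mp hF))) c1,
      fun hF => tf_absurd (hZ c hc (Or.inl ((forb_bad _ _ _).mp hF))) c2,
      fun hF => tf_absurd (hZ c hc (Or.inr ((forb_bad _ _ _).mp hF))) c2⟩
  choice2 := by
    intro s q r r2 t u e e2 hs he2 hne r2' u' e2' hq hm
    have F := reqF hI h h2 r r2 t u s hs
    have G := reqF hI h h2 r r2' e u' q hq
    obtain ⟨b1, b2, b3⟩ := shared hI h3 s q r t e F.h1.hs G.h1.hs _ rfl
    have kk : ∀ k2, Bad u e2 k2 →
        (sw ((grow D s).pm.getD r.1 0) (12 * (show Fin 6 from t).1 +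
          ((cond (Nat.beq (show Fin 6 from e).1 (show Fin 6 from t).1) 6 0) + k2.1))).testBit q.1
          = true := by
      intro k2 hb
      by_cases het : e = t
      · have e0 : Nat.beq (show Fin 6 from e).1 (show Fin 6 from t).1 = true :=
          Pool.Agent.Helper63.MF.beq_of_eq (congrArg Fin.val het)
        rw [e0]
        exact F.pm' q e2 k2 he2 hb (fun hh => hne ⟨het, hh⟩)
      · have e0 : Nat.beq (show Fin 6 from e).1 (show Fin 6 from t).1 = false := by
          rw [Bool.eq_false_iff]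
          intro hh
          exact het (Fin.ext (Nat.eq_of_beq_eq_true hh))
        rw [e0]
        exact F.pm q e2 k2 he2 hb
    by_cases h5 : ∃ k2, Bad u e2 k2
    · obtain ⟨k2, hk2⟩ := h5
      have uk2 : ∀ c, Bad u e2 c → c = k2 := fun c hc => bad_unique u e2 c k2 hc hk2
      obtain ⟨d1, d2⟩ := b3 k2 (kk k2 hk2)
      by_cases h6 : ∃ k3, Bad u' e2' k3
      · obtain ⟨k3, hk3⟩ := h6
        have uk3 : ∀ c, Bad u' e2' c → c = k3 := fun c hc => bad_unique u' e2' c k3 hc hk3
        obtain ⟨c, hc, c1, c2, c3⟩ := d2 k3 (G.qm s e2' k3 hm hk3)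
        exact ⟨c, hc, fun hF => c1 ((forb_bad _ _ _).mp hF),
          fun hF => c2 (uk2 c ((forb_bad _ _ _).mp hF)),
          fun hF => c3 (uk3 c ((forb_bad _ _ _).mp hF))⟩
      · obtain ⟨c, hc, c1, c2⟩ := d1
        exact ⟨c, hc, fun hF => c1 ((forb_bad _ _ _).mp hF),
          fun hF => c2 (uk2 c ((forb_bad _ _ _).mp hF)),
          fun hF => h6 ⟨c, (forb_bad _ _ _).mp hF⟩⟩
    · by_cases h6 : ∃ k3, Bad u' e2' k3
      · obtain ⟨k3, hk3⟩ := h6
        have uk3 : ∀ c, Bad u' e2' c → c = k3 := fun c hc => bad_unique u' e2' c k3 hc hk3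
        obtain ⟨c, hc, c1, c3⟩ := b2 k3 (G.qm s e2' k3 hm hk3)
        exact ⟨c, hc, fun hF => c1 ((forb_bad _ _ _).mp hF),
          fun hF => h5 ⟨c, (forb_bad _ _ _).mp hF⟩,
          fun hF => c3 (uk3 c ((forb_bad _ _ _).mp hF))⟩
      · obtain ⟨c, hc, c1⟩ := b1
        exact ⟨c, hc, fun hF => c1 ((forb_bad _ _ _).mp hF),
          fun hF => h5 ⟨c, (forb_bad _ _ _).mp hF⟩,
          fun hF => h6 ⟨c, (forb_bad _ _ _).mp hF⟩⟩
  choice3 := by
    intro s q r r2 t u e e2 hs hne hq
    obtain ⟨c, hc, c1, c2⟩ := two_shared hI h4 r r2 s q t u e e2 hs hq hne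
    exact ⟨c, hc, fun hF => c1 ((forb_bad _ _ _).mp hF), fun hF => c2 ((forb_bad _ _ _).mp hF)⟩

/-- A list of rows which passes the check gives a representation. -/
theorem rep_of_fast2 (hI : gI D = true) (h : gA D D = true) (h2 : gB D D = true)
    (h3 : gC D D = true) (h4 : gE D D = true) (hD : 0 < D.length) :
    ∃ (U : Type) (r : Set Atom → Set (U × U)), Nonempty U ∧ IsRepresentation U r :=
  rep_of_menuCert (gcert hI h h2 h3 h4) ⟨0, hD⟩

end Pool.Agent.Helper63.MF2
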