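import Pool.Agent.RA6.Frame99b

/-!
Menu scheme for MP_cf0286_al: the newborn chooses its colour to every older vertex inside a menu,
in order of age of the older vertices. A finite certificate gives a representation.
-/

namespace Pool.Agent.Helper63.MF2

open Pool.Agent.RA6

/-- A menu certificate with local information. `M s q c`: colour `c` is in the menu of a newborn of type `s` towards an
older vertex of type `q`. `C`: colours which may occur. `N r q e`: colour between a vertex of
type `r` and one of type `q`, where the first is not a host of the second. `Y r r2 t u s`: the request `t` at a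
vertex of type `r`, `u` at a vertex of type `r2`, may be served by a newborn of type `s`. -/
structure MenuCert (T : Type) where
  M : T → T → ZMod 6 → Prop
  C : T → T → ZMod 6 → Prop
  N : T → T → ZMod 6 → Prop
  Y : T → T → ZMod 6 → ZMod 6 → T → Prop
  Csymm : ∀ s q c, C s q c → C q s c
  Ysymm : ∀ r r2 t u s, Y r r2 t u s → Y r2 r u t s
  MC : ∀ s q c, M s q c → C s q c
  Mne : ∀ s q, ∃ c, M s q c
  tri : ∀ s q q2 a b c, M s q a → M s q2 b → M q q2 c → ¬ Forbidden a c b
  YC : ∀ r r2 t u s, Y r r2 t u s → C s r t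
  MN1 : ∀ r q e, M r q e → N r q e
  MN2 : ∀ r q e, M q r e → N r q e
  YN : ∀ q r2 e u r, Y q r2 e u r → N r q e
  cover : ∀ r r2 k t u, C r r2 k → ¬ Forbidden k t u → ∃ s, Y r r2 t u s
  choice0 : ∀ s q r r2 t u e e2, Y r r2 t u s → N r q e → N r2 q e2 → ¬ (e = t ∧ e2 = u) →
    ∃ c, M s q c ∧ ¬ Forbidden t e c ∧ ¬ Forbidden u e2 c
  choice1 : ∀ s q r r2 t u e e2, Y r r2 t u s → N r q e → N r2 q e2 → ¬ (e = t ∧ e2 = u) →
    ∀ r' r2' t' u' e' e2', Y r' r2' t' u' q → M s r' e' → M s r2' e2' →
    ∃ c, M s q c ∧ ¬ Forbidden t e c ∧ ¬ Forbidden u e2 c ∧ ¬ Forbidden t' e' c ∧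
      ¬ Forbidden u' e2' c
  choice2 : ∀ s q r r2 t u e e2, Y r r2 t u s → N r2 q e2 → ¬ (e = t ∧ e2 = u) →
    ∀ r2' u' e2', Y r r2' e u' q → M s r2' e2' →
    ∃ c, M s q c ∧ ¬ Forbidden t e c ∧ ¬ Forbidden u e2 c ∧ ¬ Forbidden u' e2' c
  choice3 : ∀ s q r r2 t u e e2, Y r r2 t u s → ¬ (e = t ∧ e2 = u) → Y r r2 e e2 q →
    ∃ c, M s q c ∧ ¬ Forbidden t e c ∧ ¬ Forbidden u e2 c

variable {T : Type} (K : MenuCert T)

/-- A state. -/
structure St (n : ℕ) where
  col : ℕ → ℕ → ZMod 6
  ty : ℕ → T
  h1 : ℕ → ℕ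
  h2 : ℕ → ℕ
  born : ℕ → Prop
  symm : ∀ i j, i < n → j < n → i ≠ j → col i j = col j i
  noforb : ∀ i j k, i < n → j < n → k < n → i ≠ j → j ≠ k → i ≠ k →
    ¬ Forbidden (col i j) (col j k) (col i k)
  hlt : ∀ z, z < n → born z → h1 z < z ∧ h2 z < z
  hne : ∀ z, z < n → born z → h1 z ≠ h2 z
  hY : ∀ z, z < n → born z → K.Y (ty (h1 z)) (ty (h2 z)) (col z (h1 z)) (col z (h2 z)) (ty z)
  menu : ∀ z q, z < n → q < z → (born z → q ≠ h1 z ∧ q ≠ h2 z) → K.M (ty z) (ty q) (col z q)

variable {K}

theorem St.allC {n : ℕ} (S : St K n) (i j : ℕ) (hi : i < n) (hj : j < n) (hij : i ≠ j) :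
    K.C (S.ty i) (S.ty j) (S.col i j) := by
  have key : ∀ z q, z < n → q < z → K.C (S.ty z) (S.ty q) (S.col z q) := by
    intro z q hz hq
    by_cases hb : S.born z ∧ (q = S.h1 z ∨ q = S.h2 z)
    · obtain ⟨hb, h | h⟩ := hb
      · rw [h]; exact K.YC _ _ _ _ _ (S.hY z hz hb)
      · rw [h]; exact K.YC _ _ _ _ _ (K.Ysymm _ _ _ _ _ (S.hY z hz hb))
    · refine K.MC _ _ _ (S.menu z q hz hq fun hbz => ⟨fun h => hb ⟨hbz, Or.inl h⟩,
        fun h => hb ⟨hbz, Or.inr h⟩⟩)
  rcases lt_or_gt_of_ne hij with h | h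
  · rw [S.symm i j hi hj hij]
    exact K.Csymm _ _ _ (key j i hj h)
  · exact key i j hi h

theorem St.allN {n : ℕ} (S : St K n) (x m : ℕ) (hx : x < n) (hm : m < n) (hxm : x ≠ m)
    (hh : S.born m → x ≠ S.h1 m ∧ x ≠ S.h2 m) : K.N (S.ty x) (S.ty m) (S.col x m) := by
  rcases lt_or_gt_of_ne hxm with h | h
  · rw [S.symm x m hx hm hxm]
    exact K.MN2 _ _ _ (S.menu m x hm h hh)
  · by_cases hb : S.born x ∧ (m = S.h1 x ∨ m = S.h2 x)
    · obtain ⟨hb, h' | h'⟩ := hb
      · rw [h']; exact K.YN _ _ _ _ _ (S.hY x hx hb)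
      · rw [h']; exact K.YN _ _ _ _ _ (K.Ysymm _ _ _ _ _ (S.hY x hx hb))
    · exact K.MN1 _ _ _ (S.menu x m hx h fun hbz => ⟨fun h' => hb ⟨hbz, Or.inl h'⟩,
        fun h' => hb ⟨hbz, Or.inr h'⟩⟩)

/-- the colour of the newborn to `z` is good -/
def Good {n : ℕ} (S : St K n) (x y : ℕ) (a b : ZMod 6) (s : T) (f : ℕ → ZMod 6) (z : ℕ) : Prop :=
  (z = x → f z = a) ∧ (z = y → f z = b) ∧ (z ≠ x → z ≠ y → K.M s (S.ty z) (f z) ∧
    ¬ Forbidden a (S.col x z) (f z) ∧ ¬ Forbidden b (S.col y z) (f z) ∧
    (S.born z → ¬ Forbidden (S.col z (S.h1 z)) (f (S.h1 z)) (f z) ∧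
      ¬ Forbidden (S.col z (S.h2 z)) (f (S.h2 z)) (f z)))

theorem exists_row {n : ℕ} (S : St K n) (x y : ℕ) (a b : ZMod 6) (s : T) (hx : x < n) (hy : y < n)
    (hxy : x ≠ y) (hs : K.Y (S.ty x) (S.ty y) a b s)
    (hw : ¬ ∃ w, w < n ∧ w ≠ x ∧ w ≠ y ∧ S.col x w = a ∧ S.col w y = b) :
    ∀ m, m ≤ n → ∃ f : ℕ → ZMod 6, ∀ z, z < m → Good S x y a b s f z := by
  classical
  intro m
  induction m with
  | zero => intro _; exact ⟨fun _ => 0, fun z hz => absurd hz (Nat.not_lt_zero _)⟩
  | succ m ih =>
    intro hm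
    obtain ⟨f, hf⟩ := ih (by omega)
    have hmn : m < n := by omega
    -- it is enough to find the colour
    have key : ∀ c : ZMod 6, ((m = x → c = a) ∧ (m = y → c = b) ∧ (m ≠ x → m ≠ y →
        K.M s (S.ty m) c ∧ ¬ Forbidden a (S.col x m) c ∧ ¬ Forbidden b (S.col y m) c ∧
        (S.born m → ¬ Forbidden (S.col m (S.h1 m)) (f (S.h1 m)) c ∧
          ¬ Forbidden (S.col m (S.h2 m)) (f (S.h2 m)) c))) →
        ∃ f : ℕ → ZMod 6, ∀ z, z < m + 1 → Good S x y a b s f z := by
      intro c hc
      refine ⟨Function.update f m c, fun z hz => ?_⟩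
      rcases Nat.lt_succ_iff_lt_or_eq.mp hz with hzm | hzm
      · have hg := hf z hzm
        have e0 : Function.update f m c z = f z := Function.update_of_ne (by omega) _ _
        unfold Good at hg ⊢
        rw [e0]
        refine ⟨hg.1, hg.2.1, fun h1 h2 => ?_⟩
        obtain ⟨g1, g2, g3, g4⟩ := hg.2.2 h1 h2
        refine ⟨g1, g2, g3, fun hb => ?_⟩
        have hl := S.hlt z (by omega) hb
        have e1 : Function.update f m c (S.h1 z) = f (S.h1 z) :=
          Function.update_of_ne (by omega) _ _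
        have e2 : Function.update f m c (S.h2 z) = f (S.h2 z) :=
          Function.update_of_ne (by omega) _ _
        rw [e1, e2]
        exact g4 hb
      · subst hzm
        have e0 : Function.update f z c z = c := Function.update_self _ _ _
        unfold Good
        rw [e0]
        refine ⟨hc.1, hc.2.1, fun h1 h2 => ?_⟩
        obtain ⟨g1, g2, g3, g4⟩ := hc.2.2 h1 h2
        refine ⟨g1, g2, g3, fun hb => ?_⟩
        have hl := S.hlt z hmn hb
        have e1 : Function.update f z c (S.h1 z) = f (S.h1 z) :=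
          Function.update_of_ne (by omega) _ _
        have e2 : Function.update f z c (S.h2 z) = f (S.h2 z) :=
          Function.update_of_ne (by omega) _ _
        rw [e1, e2]
        exact g4 hb
    by_cases hmx : m = x
    · exact key a ⟨fun _ => rfl, fun h => absurd (hmx.symm.trans h) hxy, fun h => absurd hmx h⟩
    by_cases hmy : m = y
    · exact key b ⟨fun h => absurd h hmx, fun _ => rfl, fun _ h => absurd hmy h⟩
    have hnw : ¬ (S.col x m = a ∧ S.col y m = b) := by
      intro h
      refine hw ⟨m, hmn, hmx, hmy, h.1, ?_⟩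
      rw [S.symm m y hmn hy hmy]; exact h.2
    have sx := S.symm m x hmn hx hmx
    have sy := S.symm m y hmn hy hmy
    by_cases hb : S.born m
    · have hl := S.hlt m hmn hb
      have hne := S.hne m hmn hb
      have hYm := S.hY m hmn hb
      have hYm' := K.Ysymm _ _ _ _ _ hYm
      have hs' := K.Ysymm _ _ _ _ _ hs
      have hnw' : ¬ (S.col y m = b ∧ S.col x m = a) := fun h => hnw ⟨h.2, h.1⟩
      -- it is enough to have the colour against the hosts different from `x` and `y`
      have fin : ∀ c, K.M s (S.ty m) c → ¬ Forbidden a (S.col x m) c →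
          ¬ Forbidden b (S.col y m) c →
          (S.h1 m ≠ x → S.h1 m ≠ y → ¬ Forbidden (S.col m (S.h1 m)) (f (S.h1 m)) c) →
          (S.h2 m ≠ x → S.h2 m ≠ y → ¬ Forbidden (S.col m (S.h2 m)) (f (S.h2 m)) c) →
          ∃ f : ℕ → ZMod 6, ∀ z, z < m + 1 → Good S x y a b s f z := by
        intro c c1 c2 c3 c4 c5
        have aux : ∀ h, h < m → (h ≠ x → h ≠ y → ¬ Forbidden (S.col m h) (f h) c) →
            ¬ Forbidden (S.col m h) (f h) c := by
          intro h hh hc
          by_cases h1 : h = x
          · have hfa : f h = a := (hf h hh).1 h1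
            rw [hfa, h1, sx]
            intro hF
            exact c2 (forb_swap12 _ _ _ hF)
          · by_cases h2 : h = y
            · have hfb : f h = b := (hf h hh).2.1 h2
              rw [hfb, h2, sy]
              intro hF
              exact c3 (forb_swap12 _ _ _ hF)
            · exact hc h1 h2
        exact key c ⟨fun h => absurd h hmx, fun h => absurd h hmy, fun _ _ => ⟨c1, c2, c3,
          fun _ => ⟨aux _ hl.1 c4, aux _ hl.2 c5⟩⟩⟩
      -- colours towards the hosts of `m`
      have host : ∀ h, h < m → h ≠ x → h ≠ y → K.M s (S.ty h) (f h) := fun h hh h1 h2 =>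
        ((hf h hh).2.2 h1 h2).1
      by_cases x1 : S.h1 m = x
      · have x2 : S.h2 m ≠ x := fun h => hne (x1.trans h.symm)
        rw [x1, sx] at hYm
        by_cases y2 : S.h2 m = y
        · rw [y2, sy] at hYm
          obtain ⟨c, c1, c2, c3⟩ := K.choice3 s (S.ty m) _ _ a b _ _ hs hnw hYm
          exact fin c c1 c2 c3 (fun h => absurd x1 h) (fun _ h => absurd y2 h)
        · have hN := S.allN y m hy hmn (Ne.symm hmy) (fun _ => ⟨fun h => hxy (x1.symm.trans h.symm),
            fun h => y2 h.symm⟩)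
          obtain ⟨c, c1, c2, c3, c4⟩ := K.choice2 s (S.ty m) _ _ a b _ _ hs hN hnw _ _ _ hYm
            (host _ hl.2 x2 y2)
          exact fin c c1 c2 c3 (fun h => absurd x1 h) (fun _ _ => c4)
      · by_cases x2 : S.h2 m = x
        · rw [x2, sx] at hYm'
          by_cases y1 : S.h1 m = y
          · rw [y1, sy] at hYm'
            obtain ⟨c, c1, c2, c3⟩ := K.choice3 s (S.ty m) _ _ a b _ _ hs hnw hYm'
            exact fin c c1 c2 c3 (fun _ h => absurd y1 h) (fun h => absurd x2 h)
          · have hN := S.allN y m hy hmn (Ne.symm hmy) (fun _ => ⟨fun h => y1 h.symm,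
              fun h => hxy (x2.symm.trans h.symm)⟩)
            obtain ⟨c, c1, c2, c3, c4⟩ := K.choice2 s (S.ty m) _ _ a b _ _ hs hN hnw _ _ _ hYm'
              (host _ hl.1 x1 y1)
            exact fin c c1 c2 c3 (fun _ _ => c4) (fun h => absurd x2 h)
        · have hNx := S.allN x m hx hmn (Ne.symm hmx) (fun _ => ⟨fun h => x1 h.symm,
            fun h => x2 h.symm⟩)
          by_cases y1 : S.h1 m = y
          · have y2 : S.h2 m ≠ y := fun h => hne (y1.trans h.symm)
            rw [y1, sy] at hYm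
            obtain ⟨c, c1, c2, c3, c4⟩ := K.choice2 s (S.ty m) _ _ b a _ _ hs' hNx hnw' _ _ _ hYm
              (host _ hl.2 x2 y2)
            exact fin c c1 c3 c2 (fun _ h => absurd y1 h) (fun _ _ => c4)
          · by_cases y2 : S.h2 m = y
            · rw [y2, sy] at hYm'
              obtain ⟨c, c1, c2, c3, c4⟩ := K.choice2 s (S.ty m) _ _ b a _ _ hs' hNx hnw' _ _ _
                hYm' (host _ hl.1 x1 y1)
              exact fin c c1 c3 c2 (fun _ _ => c4) (fun _ h => absurd y2 h)
            · have hNy := S.allN y m hy hmn (Ne.symm hmy) (fun _ => ⟨fun h => y1 h.symm,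
                fun h => y2 h.symm⟩)
              obtain ⟨c, c1, c2, c3, c4, c5⟩ := K.choice1 s (S.ty m) _ _ a b _ _ hs hNx hNy hnw
                _ _ _ _ _ _ hYm (host _ hl.1 x1 y1) (host _ hl.2 x2 y2)
              exact fin c c1 c2 c3 (fun _ _ => c4) (fun _ _ => c5)
    · have hNx := S.allN x m hx hmn (Ne.symm hmx) (fun h => absurd h hb)
      have hNy := S.allN y m hy hmn (Ne.symm hmy) (fun h => absurd h hb)
      obtain ⟨c, c1, c2, c3⟩ := K.choice0 s (S.ty m) _ _ a b _ _ hs hNx hNy hnw
      exact key c ⟨fun h => absurd h hmx, fun h => absurd h hmy, fun _ _ => ⟨c1, c2, c3,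
        fun h => absurd h hb⟩⟩

/-- the new colouring -/
def ncol {n : ℕ} (S : St K n) (f : ℕ → ZMod 6) (i j : ℕ) : ZMod 6 :=
  if i = n then f j else if j = n then f i else S.col i j

theorem ncol_old {n : ℕ} (S : St K n) (f : ℕ → ZMod 6) (i j : ℕ) (hi : i < n) (hj : j < n) :
    ncol S f i j = S.col i j := by
  unfold ncol; rw [if_neg (by omega), if_neg (by omega)]

theorem ncol_left {n : ℕ} (S : St K n) (f : ℕ → ZMod 6) (j : ℕ) : ncol S f n j = f j := by
  unfold ncol; rw [if_pos rfl]

theorem ncol_right {n : ℕ} (S : St K n) (f : ℕ → ZMod 6) (i : ℕ) (hi : i < n) :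
    ncol S f i n = f i := by
  unfold ncol; rw [if_neg (by omega), if_pos rfl]

theorem new_tri {n : ℕ} (S : St K n) (x y : ℕ) (a b : ZMod 6) (s : T) (f : ℕ → ZMod 6)
    (hx : x < n) (hy : y < n) (hxy : x ≠ y) (hab : ¬ Forbidden (S.col x y) a b)
    (hf : ∀ z, z < n → Good S x y a b s f z) (i j : ℕ) (hi : i < n) (hj : j < n) (hij : i ≠ j) :
    ¬ Forbidden (f i) (S.col i j) (f j) := by
  have fx : f x = a := (hf x hx).1 rfl
  have fy : f y = b := (hf y hy).2.1 rfl
  -- a host against the others
  have hostx : ∀ j, j < n → x ≠ j → ¬ Forbidden a (S.col x j) (f j) := by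
    intro j hj hxj
    by_cases hyj : j = y
    · subst hyj
      rw [fy]
      intro hF
      exact hab (forb_swap12 _ _ _ hF)
    · exact ((hf j hj).2.2 (Ne.symm hxj) hyj).2.1
  have hosty : ∀ j, j < n → y ≠ j → ¬ Forbidden b (S.col y j) (f j) := by
    intro j hj hyj
    by_cases hxj : j = x
    · subst hxj
      rw [fx, S.symm y j hy hj hyj]
      intro hF
      exact hab (forb_swap23 _ _ _ (forb_swap12 _ _ _ hF))
    · exact ((hf j hj).2.2 hxj (Ne.symm hyj)).2.2.1
  have swap13 : ∀ p q r : ZMod 6, Forbidden p q r → Forbidden r q p := fun p q r h =>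
    forb_swap12 _ _ _ (forb_swap23 _ _ _ (forb_swap12 _ _ _ h))
  by_cases h1 : i = x
  · subst h1; rw [fx]; exact hostx j hj hij
  by_cases h2 : i = y
  · subst h2; rw [fy]; exact hosty j hj hij
  by_cases h3 : j = x
  · subst h3; rw [fx, S.symm i j hi hj hij]
    intro hF
    exact hostx i hi (Ne.symm hij) (swap13 _ _ _ hF)
  by_cases h4 : j = y
  · subst h4; rw [fy, S.symm i j hi hj hij]
    intro hF
    exact hosty i hi (Ne.symm hij) (swap13 _ _ _ hF)
  -- both are in the menus
  have main : ∀ p q, p < n → q < p → p ≠ x → p ≠ y → q ≠ x → q ≠ y →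
      ¬ Forbidden (f p) (S.col p q) (f q) := by
    intro p q hp hq p1 p2 q1 q2
    have gp := (hf p hp).2.2 p1 p2
    have gq := (hf q (by omega)).2.2 q1 q2
    by_cases hb : S.born p ∧ (q = S.h1 p ∨ q = S.h2 p)
    · obtain ⟨hb, h | h⟩ := hb
      · have := (gp.2.2.2 hb).1
        rw [← h] at this
        intro hF
        exact this (forb_swap23 _ _ _ (forb_swap12 _ _ _ hF))
      · have := (gp.2.2.2 hb).2
        rw [← h] at this
        intro hF
        exact this (forb_swap23 _ _ _ (forb_swap12 _ _ _ hF))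
    · have hm := S.menu p q hp hq fun hbz => ⟨fun h => hb ⟨hbz, Or.inl h⟩,
        fun h => hb ⟨hbz, Or.inr h⟩⟩
      exact K.tri s _ _ _ _ _ gp.1 gq.1 hm
  rcases lt_or_gt_of_ne hij with h | h
  · rw [S.symm i j hi hj hij]
    intro hF
    exact main j i hj h h3 h4 h1 h2 (swap13 _ _ _ hF)
  · exact main i j hi h h1 h2 h3 h4

/-- The one point extension. -/
theorem step {n : ℕ} (S : St K n) (x y : ℕ) (a b : ZMod 6) (hx : x < n) (hy : y < n) (hxy : x ≠ y)
    (hab : ¬ Forbidden (S.col x y) a b)
    (hw : ¬ ∃ w, w < n ∧ w ≠ x ∧ w ≠ y ∧ S.col x w = a ∧ S.col w y = b) :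
    ∃ S' : St K (n + 1), (∀ i j, i < n → j < n → i ≠ j → S'.col i j = S.col i j) ∧
      S'.col x n = a ∧ S'.col n y = b := by
  classical
  obtain ⟨s, hs⟩ := K.cover _ _ _ a b (S.allC x y hx hy hxy) hab
  obtain ⟨f, hf⟩ := exists_row S x y a b s hx hy hxy hs hw n le_rfl
  have fx : f x = a := (hf x hx).1 rfl
  have fy : f y = b := (hf y hy).2.1 rfl
  have tri := new_tri S x y a b s f hx hy hxy hab hf
  let ty' : ℕ → T := Function.update S.ty n s
  let g1 : ℕ → ℕ := Function.update S.h1 n x
  let g2 : ℕ → ℕ := Function.update S.h2 n y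
  have tyo : ∀ z, z < n → ty' z = S.ty z := fun z hz => Function.update_of_ne (by omega) _ _
  have g1o : ∀ z, z < n → g1 z = S.h1 z := fun z hz => Function.update_of_ne (by omega) _ _
  have g2o : ∀ z, z < n → g2 z = S.h2 z := fun z hz => Function.update_of_ne (by omega) _ _
  have tyn : ty' n = s := Function.update_self _ _ _
  have g1n : g1 n = x := Function.update_self _ _ _
  have g2n : g2 n = y := Function.update_self _ _ _
  have hsym : ∀ i j, i < n + 1 → j < n + 1 → i ≠ j → ncol S f i j = ncol S f j i := by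
    intro i j hi hj hij
    by_cases h1 : i = n
    · subst h1
      rw [ncol_left, ncol_right S f j (by omega)]
    · by_cases h2 : j = n
      · subst h2
        rw [ncol_left, ncol_right S f i (by omega)]
      · rw [ncol_old S f i j (by omega) (by omega), ncol_old S f j i (by omega) (by omega)]
        exact S.symm i j (by omega) (by omega) hij
  refine ⟨⟨ncol S f, ty', g1, g2, fun z => z = n ∨ S.born z, hsym, ?_, ?_, ?_, ?_, ?_⟩, ?_, ?_, ?_⟩
  · intro i j k hi hj hk hij hjk hik
    by_cases h1 : i = n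
    · subst h1
      rw [ncol_left, ncol_left, ncol_old S f j k (by omega) (by omega)]
      intro hF
      exact tri j k (by omega) (by omega) hjk hF
    · by_cases h2 : j = n
      · subst h2
        rw [ncol_left, ncol_right S f i (by omega), ncol_old S f i k (by omega) (by omega)]
        intro hF
        exact tri i k (by omega) (by omega) hik (forb_swap23 _ _ _ hF)
      · by_cases h3 : k = n
        · subst h3
          rw [ncol_right S f i (by omega), ncol_right S f j (by omega),
            ncol_old S f i j (by omega) (by omega)]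
          intro hF
          exact tri i j (by omega) (by omega) hij (forb_swap12 _ _ _ (forb_swap23 _ _ _ hF))
        · rw [ncol_old S f i j (by omega) (by omega), ncol_old S f j k (by omega) (by omega),
            ncol_old S f i k (by omega) (by omega)]
          exact S.noforb i j k (by omega) (by omega) (by omega) hij hjk hik
  · intro z hz hb
    by_cases h : z = n
    · subst h
      rw [g1n, g2n]
      exact ⟨hx, hy⟩
    · rw [g1o z (by omega), g2o z (by omega)]
      exact S.hlt z (by omega) (hb.resolve_left h)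
  · intro z hz hb
    by_cases h : z = n
    · subst h
      rw [g1n, g2n]
      exact hxy
    · rw [g1o z (by omega), g2o z (by omega)]
      exact S.hne z (by omega) (hb.resolve_left h)
  · intro z hz hb
    by_cases h : z = n
    · subst h
      rw [g1n, g2n, tyn, tyo x hx, tyo y hy, ncol_left, ncol_left, fx, fy]
      exact hs
    · have hzn : z < n := by omega
      have hbz := hb.resolve_left h
      have hl := S.hlt z hzn hbz
      rw [g1o z hzn, g2o z hzn, tyo z hzn, tyo _ (by omega : S.h1 z < n),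
        tyo _ (by omega : S.h2 z < n), ncol_old S f z _ hzn (by omega),
        ncol_old S f z _ hzn (by omega)]
      exact S.hY z hzn hbz
  · intro z q hz hq hbq
    by_cases h : z = n
    · subst h
      have h2 := hbq (Or.inl rfl)
      rw [g1n, g2n] at h2
      rw [tyn, tyo q hq, ncol_left]
      exact ((hf q hq).2.2 h2.1 h2.2).1
    · have hzn : z < n := by omega
      rw [tyo z hzn, tyo q (by omega), ncol_old S f z q hzn (by omega)]
      refine S.menu z q hzn hq fun hbz => ?_
      have := hbq (Or.inr hbz)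
      rw [g1o z hzn, g2o z hzn] at this
      exact this
  · intro i j hi hj _
    exact ncol_old S f i j hi hj
  · show ncol S f x n = a
    rw [ncol_right S f x hx]; exact fx
  · show ncol S f n y = b
    rw [ncol_left]; exact fy

theorem stepClass (K : MenuCert T) :
    StepClass' (fun n => St K n) (fun {n} S => S.col) where
  symm := fun n S i j hi hj hij => S.symm i j hi hj hij
  no_forb := fun n S i j k hi hj hk hij hjk hik => S.noforb i j k hi hj hk hij hjk hik
  step := fun n S x y a b hx hy hxy hab hw => step S x y a b hx hy hxy hab hw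

/-- A menu certificate gives a representation of the algebra. -/
theorem rep_of_menuCert (K : MenuCert T) (t0 : T) :
    ∃ (U : Type) (r : Set Atom → Set (U × U)), Nonempty U ∧ IsRepresentation U r := by
  obtain ⟨c0, hc0⟩ := K.Mne t0 t0
  refine rep_of_step' (stepClass K) 2 le_rfl
    ⟨fun _ _ => c0, fun _ => t0, fun _ => 0, fun _ => 0, fun _ => False, ?_, ?_, ?_, ?_, ?_, ?_⟩
  · intro i j _ _ _; rfl
  · intro i j k hi hj hk hij hjk hik; exfalso; omega
  · intro z _ h; exact h.elim
  · intro z _ h; exact h.elim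
  · intro z _ h; exact h.elim
  · intro z q _ _ _; exact hc0

end Pool.Agent.Helper63.MF2
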